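import Pool.Agent.U436.CS.Main

/-!
# From the variety `A (z) = ∑ a j * b j` to its last stratum
-/

set_option autoImplicit false

namespace Pool.Agent.U436.CS

open Finset Pool.Agent.U436 Pool.Agent.U436.AS Pool.Agent.U436.CP
open Pool.Agent.U436.CT hiding VI ia ib iz iv vset vl tau tau_iz tau_ia tau_ib tau_iv tau_tau tau_zero mem_vl isZeroSet_vset
  isZeroSet_vl isPolMap_tau tau_mem isAut_tau isLineAut

variable {k K : Type} [Field k] [Field K] {J : Type} [Fintype J] [DecidableEq J] {B : Type} [Finite B] [DecidableEq B]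
  {T : Homology k K} {P : CycleMap k K} {A : Polynomial k} {pl : B → J}

lemma vl_sub (l : List J) : vl A pl l ⊆ vset A pl := fun _ hw => (mem_vl.mp hw).1

/-- Closed immersions of closed immersions. -/
lemma incl_incl (hT : T.IsBorelMoore) {ι : Type} [Finite ι] {Z Y X : Set (ι → k)} (hZ : IsZeroSet Z)
    (hY : IsZeroSet Y) (hX : IsZeroSet X) (h1 : Z ⊆ Y) (h2 : Y ⊆ X) (z : T.H Z) :
    T.incl Y X (T.incl Z Y z) = T.incl Z X z :=
  hT.functor.img_img Z Y X (fun y => y) (fun y => y) hZ hY hX (fin_incl h1) (fin_incl h2) z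

lemma exists_norm_zero_vl [CharZero K] (hT : T.IsBorelMoore) (hA : IsAdditive A) (hA0 : A ≠ 0) (l : List J)
    (x : T.H (vset A pl)) (hx : nm T A (vset A pl) x = 0) :
    ∃ y : T.H (vl A pl l), nm T A (vl A pl l) y = 0 ∧ T.incl (vl A pl l) (vset A pl) y = x := by
  induction l with
  | nil => exact ⟨x, hx, hT.functor.img_id _ (isZeroSet_vl A pl []) x⟩
  | cons j l ih =>
    obtain ⟨y, hy0, hy⟩ := ih
    obtain ⟨z, hz0, hz⟩ := exists_norm_zero hT hA hA0 l j y hy0
    refine ⟨z, hz0, ?_⟩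
    rw [← incl_incl hT (isZeroSet_vl A pl (j :: l)) (isZeroSet_vl A pl l) (isZeroSet_vset A pl)
      (fun w hw => hw.1) (vl_sub l) z, hz, hy]

lemma norm_zero_inj_vl [CharZero K] (hT : T.IsBorelMoore) (hA : IsAdditive A) (hA0 : A ≠ 0) (l : List J)
    (y : T.H (vl A pl l)) (hy0 : nm T A (vl A pl l) y = 0) (hy : T.incl (vl A pl l) (vset A pl) y = 0) :
    y = 0 := by
  induction l with
  | nil =>
    have h1 : T.incl (vl A pl []) (vset A pl) y = y := hT.functor.img_id _ (isZeroSet_vl A pl []) y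
    rw [h1] at hy
    exact hy
  | cons j l ih =>
    have hZ := isZeroSet_vl A pl (j :: l)
    have hX := isZeroSet_vl A pl l
    have hsub : vl A pl (j :: l) ⊆ vl A pl l := fun w hw => hw.1
    refine norm_zero_inj hT hA hA0 l j y hy0 (ih _ ?_ ?_)
    · have h4 : T.incl (vl A pl (j :: l)) (vl A pl l) (nm T A (vl A pl (j :: l)) y) =
          nm T A (vl A pl l) (T.incl (vl A pl (j :: l)) (vl A pl l) y) := by
        rw [nm_apply, nm_apply, map_sum]
        refine Finset.sum_congr rfl fun ζ hζ => ?_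
        have hζ' := (mem_zer hA0).mp hζ
        exact (hT.aut_inc _ _ _ hZ hX hsub (isAut_tau hA hζ') (isAut_tau hA hζ') y).symm
      rw [← h4, hy0, map_zero]
    · rw [incl_incl hT hZ hX (isZeroSet_vset A pl) hsub (vl_sub l), hy]

/-- The last stratum. -/
def bot (A : Polynomial k) (pl : B → J) : Set (VI J B → k) := vl A pl (univ : Finset J).toList

lemma isUnion_bot (hA0 : A ≠ 0) : IsUnion (zer A) (lst : k → Set (VI J B → k)) (bot A pl) :=
  isUnion_lst hA0 _ fun j => Finset.mem_toList.mpr (mem_univ j)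

/-- The parametrization of the points with `z = ζ` of the last stratum. -/
def par {n : ℕ} (e : J ≃ Fin n) (ζ : k) (t : Fin n → k) : VI J B → k :=
  Sum.elim (Sum.elim (fun j => t (e j)) fun _ => 0) (Sum.elim (fun _ => ζ) fun _ => 1)

/-- Its inverse. -/
def rap {n : ℕ} (e : J ≃ Fin n) (w : VI J B → k) : Fin n → k := fun i => w (ia (e.symm i))

omit [Fintype J] [DecidableEq J] [Finite B] [DecidableEq B] in
lemma isPolMap_par {n : ℕ} (e : J ≃ Fin n) (ζ : k) : IsPolMap (par e ζ : (Fin n → k) → VI J B → k) := by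
  rintro ((j | j) | (j | j))
  · exact IsPol.coord _
  · exact IsPol.const _
  · exact IsPol.const _
  · exact IsPol.const _

omit [Fintype J] [DecidableEq J] [Finite B] [DecidableEq B] in
lemma isPolMap_rap {n : ℕ} (e : J ≃ Fin n) : IsPolMap (rap e : (VI J B → k) → Fin n → k) :=
  fun _ => IsPol.coord _

omit [Fintype J] [DecidableEq J] [Finite B] [DecidableEq B] in
lemma rap_par {n : ℕ} (e : J ≃ Fin n) (ζ : k) (t : Fin n → k) : rap e (par e ζ t : VI J B → k) = t := by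
  funext i
  show t (e (e.symm i)) = t i
  rw [e.apply_symm_apply]

omit [Fintype J] [DecidableEq J] [Finite B] [DecidableEq B] in
lemma par_mem {n : ℕ} (e : J ≃ Fin n) (ζ : k) (t : Fin n → k) : (par e ζ t : VI J B → k) ∈ lst ζ :=
  ⟨⟨fun _ => rfl, sub_self _⟩, fun _ => sub_self _⟩

omit [Fintype J] [DecidableEq J] [Finite B] [DecidableEq B] in
lemma fin_par {n : ℕ} (e : J ≃ Fin n) {ζ : k} {X : Set (VI J B → k)} (hX : (lst ζ : Set (VI J B → k)) ⊆ X) :
    IsFiniteMap (Set.univ : Set (Fin n → k)) X (par e ζ) :=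
  ⟨isPolMap_par e ζ, fun t _ => hX (par_mem e ζ t),
    fun i => Itg.of_pol (F := fun t : Fin n → k => t i) (isPolMap_rap e i) fun t _ => by rw [rap_par]⟩

omit [Fintype J] in
lemma tau_par {n : ℕ} (e : J ≃ Fin n) (ζ ξ : k) (t : Fin n → k) :
    tau ξ (par e ζ t : VI J B → k) = par e (ζ + ξ) t := by
  funext q
  rcases q with (j | j) | (j | j)
  · exact tau_ia _ _ _
  · exact tau_ib _ _ _
  · exact tau_iz _ _
  · exact tau_iv _ _ _

lemma lst_sub (hA0 : A ≠ 0) {ζ : k} (hζ : A.eval ζ = 0) : (lst ζ : Set (VI J B → k)) ⊆ bot A pl :=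
  fun w hw => ((isUnion_bot hA0).2.2 w).mpr ⟨ζ, (mem_zer hA0).mpr hζ, hw⟩

/-- The norm of the class of a copy of the affine space does not depend on the copy. -/
lemma nm_par (hT : T.IsBorelMoore) (hA : IsAdditive A) (hA0 : A ≠ 0) {n : ℕ} (e : J ≃ Fin n) {l : List J}
    (hl : ∀ {ζ : k}, A.eval ζ = 0 → (lst ζ : Set (VI J B → k)) ⊆ vl A pl l) {ζ : k} (hζ : A.eval ζ = 0)
    (y : T.H (Set.univ : Set (Fin n → k))) :
    nm T A (vl A pl l) (T.push _ _ (par e ζ) y) = ∑ ξ ∈ zer A, T.push _ (vl A pl l) (par e ξ) y := by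
  rw [nm_apply, ← sum_shift hA hA0 (fun ξ => T.push _ (vl A pl l) (par e ξ) y) hζ]
  refine Finset.sum_congr rfl fun ξ hξ => ?_
  have hξ' := (mem_zer hA0).mp hξ
  have hζξ : A.eval (ζ + ξ) = 0 := by rw [hA, hζ, hξ', add_zero]
  have h1 : IsFiniteMap (Set.univ : Set (Fin n → k)) (vl A pl l) fun t => tau ξ (par e ζ t) := by
    have h2 : (fun t => tau ξ (par e ζ t : VI J B → k)) = par e (ζ + ξ) := by
      funext t; exact tau_par e ζ ξ t
    rw [h2]
    exact fin_par e (hl hζξ)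
  exact (hT.functor.img_img _ _ _ _ _ isZeroSet_univ (isZeroSet_vl A pl l) (isZeroSet_vl A pl l)
    (fin_par e (hl hζ)) (IsAut.fin (isAut_tau hA hξ')) y).trans
    (hT.functor.img_eq _ _ _ _ isZeroSet_univ (isZeroSet_vl A pl l) h1 (fin_par e (hl hζξ))
      (fun t _ => tau_par e ζ ξ t) y)

/-- The difference of two copies of a class of the affine space. -/
noncomputable def dif {n : ℕ} (e : J ≃ Fin n) (ζ : k) (X : Set (VI J B → k))
    (y : T.H (Set.univ : Set (Fin n → k))) : T.H X :=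
  T.push _ X (par e ζ) y - T.push _ X (par e 0) y

lemma nm_dif (hT : T.IsBorelMoore) (hA : IsAdditive A) (hA0 : A ≠ 0) {n : ℕ} (e : J ≃ Fin n) {l : List J}
    (hl : ∀ {ζ : k}, A.eval ζ = 0 → (lst ζ : Set (VI J B → k)) ⊆ vl A pl l) {ζ : k} (hζ : A.eval ζ = 0)
    (y : T.H (Set.univ : Set (Fin n → k))) : nm T A (vl A pl l) (dif e ζ (vl A pl l) y) = 0 := by
  unfold dif
  rw [map_sub, nm_par hT hA hA0 e hl hζ, nm_par hT hA hA0 e hl hA.map_zero, sub_self]

lemma incl_push (hT : T.IsBorelMoore) {n : ℕ} (e : J ≃ Fin n) {ζ : k} {X Y : Set (VI J B → k)}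
    (hX : IsZeroSet X) (hY : IsZeroSet Y) (h1 : (lst ζ : Set (VI J B → k)) ⊆ X) (h2 : X ⊆ Y)
    (y : T.H (Set.univ : Set (Fin n → k))) :
    T.incl X Y (T.push _ X (par e ζ) y) = T.push _ Y (par e ζ) y :=
  hT.functor.img_img _ _ _ (par e ζ) (fun y => y) isZeroSet_univ hX hY (fin_par e h1) (fin_incl h2) y

lemma cl_dif (hP : P.IsBorelMoore) {n : ℕ} (e : J ≃ Fin n) {ζ : k} {X : Set (VI J B → k)} (hX : IsZeroSet X)
    (h1 : (lst ζ : Set (VI J B → k)) ⊆ X) (h2 : (lst 0 : Set (VI J B → k)) ⊆ X)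
    (y : P.G.H (Set.univ : Set (Fin n → k))) : P.cl X (dif e ζ X y) = dif e ζ X (P.cl _ y) := by
  unfold dif
  rw [map_sub, hP.img _ _ _ isZeroSet_univ hX (fin_par e h1), hP.img _ _ _ isZeroSet_univ hX (fin_par e h2)]

lemma isZeroSet_lst (ζ : k) : IsZeroSet (lst ζ : Set (VI J B → k)) :=
  ((isZeroSet_forall fun _ => IsPol.coord _).inter
    (isZeroSet_eq ((IsPol.coord _).sub (IsPol.const _)))).inter
      (isZeroSet_forall fun _ => (IsPol.coord _).sub (IsPol.const _))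

lemma par_rap {n : ℕ} (e : J ≃ Fin n) {ζ : k} {w : VI J B → k} (hw : w ∈ (lst ζ : Set (VI J B → k))) :
    par e ζ (rap e w) = w := by
  obtain ⟨⟨h2, h3⟩, h4⟩ := hw
  funext q
  rcases q with (j | j) | (j | j)
  · show w (ia (e.symm (e j))) = w (ia j)
    rw [e.symm_apply_apply]
  · exact (h2 j).symm
  · exact (sub_eq_zero.mp h3).symm
  · exact (sub_eq_zero.mp (h4 j)).symm

lemma fin_rap {n : ℕ} (e : J ≃ Fin n) (ζ : k) :
    IsFiniteMap (lst ζ : Set (VI J B → k)) (Set.univ : Set (Fin n → k)) (rap e) :=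
  ⟨isPolMap_rap e, fun _ _ => Set.mem_univ _,
    fun i => Itg.of_pol (F := fun w : VI J B → k => w i) (isPolMap_par e ζ i) fun w hw => by rw [par_rap e hw]⟩

lemma push_rap_par (hT : T.IsBorelMoore) {n : ℕ} (e : J ≃ Fin n) (ζ : k)
    (y : T.H (Set.univ : Set (Fin n → k))) :
    T.push _ _ (rap e) (T.push _ (lst ζ : Set (VI J B → k)) (par e ζ) y) = y := by
  have h1 : IsFiniteMap (Set.univ : Set (Fin n → k)) (Set.univ : Set (Fin n → k))
      fun t => rap e (par e ζ t : VI J B → k) := by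
    have h2 : (fun t => rap e (par e ζ t : VI J B → k)) = fun t => t := by
      funext t; exact rap_par e ζ t
    rw [h2]
    exact fin_incl subset_rfl
  exact (hT.functor.img_img _ _ _ _ _ isZeroSet_univ (isZeroSet_lst ζ) isZeroSet_univ
    (fin_par e subset_rfl) (fin_rap e ζ) y).trans ((hT.functor.img_eq _ _ _ _ isZeroSet_univ isZeroSet_univ h1
      (fin_incl subset_rfl) (fun t _ => rap_par e ζ t) y).trans (hT.functor.img_id _ isZeroSet_univ y))

/-- The component of a class on the last stratum which is a difference. -/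
lemma comp_dif (hT : T.IsBorelMoore) (hA : IsAdditive A) (hA0 : A ≠ 0) {n : ℕ} (e : J ≃ Fin n) {ζ : k}
    (hζ : A.eval ζ = 0) (hζ0 : ζ ≠ 0) (y : T.H (Set.univ : Set (Fin n → k)))
    (x : (ξ : k) → T.H (lst ξ : Set (VI J B → k)))
    (h : ∑ ξ ∈ zer A, T.inc (lst ξ) (bot A pl) (x ξ) = dif e ζ (bot A pl) y) :
    T.push _ _ (rap e) (x ζ) = y := by
  classical
  have hU := isUnion_bot (pl := pl) hA0
  have hB : IsZeroSet (bot A pl) := isZeroSet_vl A pl _
  let c : k → K := fun ξ => (if ξ = ζ then 1 else 0) - if ξ = 0 then 1 else 0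
  have h1 : ∑ ξ ∈ zer A, T.inc (lst ξ) (bot A pl) (x ξ - c ξ • T.push _ (lst ξ) (par e ξ) y) = 0 := by
    have h2 : ∀ ξ ∈ zer A, T.inc (lst ξ) (bot A pl) (x ξ - c ξ • T.push _ (lst ξ) (par e ξ) y) =
        T.inc (lst ξ) (bot A pl) (x ξ) - c ξ • T.push _ (bot A pl) (par e ξ) y := by
      intro ξ hξ
      show T.incl _ _ _ = T.incl _ _ _ - _
      rw [map_sub, map_smul, incl_push hT e (isZeroSet_lst ξ) hB subset_rfl
        (lst_sub hA0 ((mem_zer hA0).mp hξ))]
    rw [Finset.sum_congr rfl h2, Finset.sum_sub_distrib, h]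
    have h3 : ∑ ξ ∈ zer A, c ξ • T.push _ (bot A pl) (par e ξ) y = dif e ζ (bot A pl) y := by
      simp only [c, sub_smul, ite_smul, one_smul, zero_smul, Finset.sum_sub_distrib]
      rw [Finset.sum_ite_eq' (zer A) ζ, if_pos ((mem_zer hA0).mpr hζ), Finset.sum_ite_eq' (zer A) 0,
        if_pos ((mem_zer hA0).mpr hA.map_zero)]
      rfl
    rw [h3, sub_self]
  have h4 := hT.add.inj (zer A) lst _ hU _ h1 ζ ((mem_zer hA0).mpr hζ)
  have h5 : c ζ = 1 := by simp [c, hζ0]
  rw [h5, one_smul, sub_eq_zero] at h4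
  rw [h4, push_rap_par hT e ζ y]

end Pool.Agent.U436.CS
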