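import Pool.Agent.U436.CS.Down

/-!
# Maps of homology theories on the determinant part
-/

set_option autoImplicit false

namespace Pool.Agent.U436.CS

open Finset Pool.Agent.U436 Pool.Agent.U436.AS Pool.Agent.U436.CP
open Pool.Agent.U436.CT hiding VI ia ib iz iv vset vl tau tau_iz tau_ia tau_ib tau_iv tau_tau tau_zero mem_vl isZeroSet_vset
  isZeroSet_vl isPolMap_tau tau_mem isAut_tau isLineAut

variable {k : Type} [Field k] {M : ℕ} {N d : Fin M → ℕ} {K : Type} [Field K] {A : Polynomial k}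
  {f0 : Fin M → Polynomial k} {f : (j : Fin M) → Fin (N j) → Polynomial k} {P : (j : Fin M) → Fin (N j) → k}
  {c : Fin M → k}

/-- Classes of norm zero come from determinant classes. -/
lemma exists_det [CharZero K] {T : Homology k K} (hT : T.IsBorelMoore) (hA : IsAdditive A) (hA0 : A ≠ 0)
    (hc : ∀ j, c j ≠ 0) (hAc : ∀ j y, A.eval (c j * y) = c j * A.eval y) {l0 : LL d} {B J : Type} [Fintype J]
    [DecidableEq J] [Finite B] [DecidableEq B] {pl : B → J} {π : (PI d N → k) → VI J B → k}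
    (hq : IsQuotient (ppow A f0 f P d) (vset A pl) π (Gam A c d) (fun γ => prho γ.1.1 fun l => (γ.1.2 l : k)))
    (hπ : ∀ ζ w, π (prho (fun _ => 1) (Pi.single l0 ζ) w) = tau (c l0.1 * ζ) (π w))
    (z : T.H (vset A pl)) (hz : nm T A (vset A pl) z = 0) :
    ∃ x : T.H (ppow A f0 f P d), Det T A f0 f P c l0 x ∧ T.push _ _ π x = z := by
  have hn := card_zer (K := K) hA hA0
  obtain ⟨x, hx, hxz⟩ := hT.quotients.onto _ _ π _ _ hq z
  change T.push _ _ π x = z at hxz
  have hx' : ∀ (σ : (j : Fin M) → Equiv.Perm (Fin (d j))) (α : LL d → k), (∀ l, A.eval (α l) = 0) →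
      ∑ l, c l.1 * α l = 0 → T.act _ (prho σ α) x = x := fun σ α hα hα0 =>
    hx ⟨(σ, fun l => ⟨α l, (mem_zer hA0).mpr (hα l)⟩), hα0⟩
  have hS := nm_push hT hA hA0 hc hAc hq hπ x
  rw [hxz, hz] at hS
  refine ⟨x - ((zer A).card : K)⁻¹ • ∑ ζ ∈ zer A, T.act _ (prho (fun _ => 1) (Pi.single l0 ζ)) x,
    ⟨fun σ α hα hα0 => ?_, ?_⟩, ?_⟩
  · rw [map_sub, map_smul, hx' σ α hα hα0, inv_sum hT hA hA0 hx' σ hα hα0]
  · have h5 := sum_sum_act hT hA hA0 (l0 := l0) x
    simp only [map_sub, map_smul, Finset.sum_sub_distrib]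
    rw [← Finset.smul_sum, h5, smul_smul, inv_mul_cancel₀ hn, one_smul, sub_self]
  · rw [map_sub, map_smul, hxz, ← hS, smul_zero, sub_zero]

lemma cl_det {C : CycleMap k K} (hC : C.IsBorelMoore) (hA : IsAdditive A) (hA0 : A ≠ 0) {l0 : LL d}
    {x : C.G.H (ppow A f0 f P d)} (hx : Det C.G A f0 f P c l0 x) : Det C.T A f0 f P c l0 (C.cl _ x) := by
  have hX : IsZeroSet (ppow A f0 f P d) := isZeroSet_ppow A f0 f P d
  refine ⟨fun σ α hα hα0 => ?_, ?_⟩
  · rw [← hC.aut _ _ hX (isAut_prho hA σ hα) x, hx.1 σ α hα hα0]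
  · have h1 : ∀ ζ ∈ zer A, C.T.act _ (prho (fun _ => 1) (Pi.single l0 ζ)) (C.cl _ x) =
        C.cl _ (C.G.act _ (prho (fun _ => 1) (Pi.single l0 ζ)) x) := by
      intro ζ hζ
      have hu0 : ∀ l, A.eval ((Pi.single l0 ζ : LL d → k) l) = 0 := by
        intro l
        by_cases hl : l = l0
        · subst hl
          rw [Pi.single_eq_same, (mem_zer hA0).mp hζ]
        · rw [Pi.single_eq_of_ne hl, hA.map_zero]
      exact (hC.aut _ _ hX (isAut_prho hA (fun _ => 1) hu0) x).symm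
    rw [Finset.sum_congr rfl h1, ← map_sum, hx.2, map_zero]

/-- The direct image of determinant classes is injective. -/
lemma push_inj {T : Homology k K} (hT : T.IsBorelMoore) (hA0 : A ≠ 0) {l0 : LL d} {B J : Type} [Fintype J]
    [DecidableEq J] [Finite B] [DecidableEq B] {pl : B → J} {π : (PI d N → k) → VI J B → k}
    (hq : IsQuotient (ppow A f0 f P d) (vset A pl) π (Gam A c d) (fun γ => prho γ.1.1 fun l => (γ.1.2 l : k)))
    {x : T.H (ppow A f0 f P d)} (hx : Det T A f0 f P c l0 x) (h : T.push _ (vset A pl) π x = 0) : x = 0 :=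
  hT.quotients.inj _ _ π _ _ hq x (fun γ => hx.1 _ _ (fun l => (mem_zer hA0).mp (γ.1.2 l).2) γ.2) h

variable [IsAlgClosed k] [CharZero K]

theorem det_inj_iff {C : CycleMap k K} (hC : C.IsBorelMoore) (hA : IsAdditive A)
    (hA0 : A ≠ 0) (hP : ∀ j, Function.Injective (P j)) (hm0 : ∀ j, ((f0 j).natDegree : k) ≠ 0)
    (hm : ∀ j i, ((f j i).natDegree : k) ≠ 0)
    (hd : ∀ j, d j + 1 = (f0 j).natDegree + ∑ i, ((f j i).natDegree + 1)) {n : ℕ} (he : ∑ j, d j = 2 * n)
    (hc : ∀ j, c j ≠ 0) (hAc : ∀ j y, A.eval (c j * y) = c j * A.eval y) (l0 : LL d) {ζ : k}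
    (hζ : A.eval ζ = 0) (hζ0 : ζ ≠ 0) :
    (∀ x : C.G.H (ppow A f0 f P d), Det C.G A f0 f P c l0 x → C.cl _ x = 0 → x = 0) ↔
      ∀ x : C.G.H (Set.univ : Set (Fin n → k)), C.cl _ x = 0 → x = 0 := by
  obtain ⟨B, J, _, _, _, _, pl, π, hJ, hq, hπ⟩ := exists_quotient hA hA0 hP hm0 hm hd he hc hAc l0
  subst hJ
  have hY : IsZeroSet (vset A pl) := isZeroSet_vset A pl
  constructor
  · intro hdet z hz
    let e : J ≃ Fin (Fintype.card J) := Fintype.equivFin J
    have hs : ∀ {ζ : k}, A.eval ζ = 0 → (lst ζ : Set (VI J B → k)) ⊆ vl A pl [] :=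
      fun h => (lst_sub hA0 h).trans (vl_sub _)
    have hs' : ∀ {ζ : k}, A.eval ζ = 0 → (lst ζ : Set (VI J B → k)) ⊆ bot A pl := fun h => lst_sub hA0 h
    have hB : IsZeroSet (bot A pl) := isZeroSet_vl A pl _
    obtain ⟨w, hw, hwz⟩ := exists_det hC.source hA hA0 hc hAc hq hπ (dif e ζ (vset A pl) z)
      (nm_dif (l := []) hC.source hA hA0 e hs hζ z)
    have h1 : C.cl _ w = 0 := by
      refine push_inj hC.target hA0 hq (cl_det hC hA hA0 hw) ?_
      rw [← hC.img _ _ _ hq.2.1 hY hq.2.2.2.1, hwz, cl_dif hC e hY (hs hζ) (hs hA.map_zero), hz]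
      unfold dif
      rw [map_zero, map_zero, sub_self]
    have h2 : dif e ζ (vset A pl) z = 0 := by rw [← hwz, hdet w hw h1, map_zero]
    have h3 : dif e ζ (bot A pl) z = 0 := by
      refine norm_zero_inj_vl hC.source hA hA0 _ _ (nm_dif hC.source hA hA0 e hs' hζ z) ?_
      change C.G.incl (bot A pl) (vset A pl) (dif e ζ (bot A pl) z) = 0
      unfold dif at h2 ⊢
      rw [map_sub, incl_push hC.source e hB hY (hs' hζ) (vl_sub _),
        incl_push hC.source e hB hY (hs' hA.map_zero) (vl_sub _), h2]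
    have h4 := comp_dif (pl := pl) hC.source hA hA0 e hζ hζ0 z (fun _ => 0) (by
      rw [h3]
      exact Finset.sum_eq_zero fun ξ _ => map_zero _)
    rw [← h4, map_zero]
  · intro hcell x hx hx0
    have hcell' : C.CellsInj (Fintype.card J) := cellsInj hC hcell
    refine push_inj hC.source hA0 hq hx ?_
    refine gInj_vset hC hA hA0 pl hcell' _ ?_ ?_
    · have h1 := nm_push hC.source hA hA0 hc hAc hq hπ x
      rw [hx.2, map_zero] at h1
      exact h1
    · rw [hC.img _ _ π hq.2.1 hq.2.2.1 hq.2.2.2.1 x, hx0, map_zero]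

theorem det_onto_iff {C : CycleMap k K} (hC : C.IsBorelMoore) (hA : IsAdditive A)
    (hA0 : A ≠ 0) (hP : ∀ j, Function.Injective (P j)) (hm0 : ∀ j, ((f0 j).natDegree : k) ≠ 0)
    (hm : ∀ j i, ((f j i).natDegree : k) ≠ 0)
    (hd : ∀ j, d j + 1 = (f0 j).natDegree + ∑ i, ((f j i).natDegree + 1)) {n : ℕ} (he : ∑ j, d j = 2 * n)
    (hc : ∀ j, c j ≠ 0) (hAc : ∀ j y, A.eval (c j * y) = c j * A.eval y) (l0 : LL d) {ζ : k}
    (hζ : A.eval ζ = 0) (hζ0 : ζ ≠ 0) :
    (∀ y : C.T.H (ppow A f0 f P d), Det C.T A f0 f P c l0 y → ∃ x, Det C.G A f0 f P c l0 x ∧ C.cl _ x = y) ↔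
      ∀ y : C.T.H (Set.univ : Set (Fin n → k)), ∃ x, C.cl _ x = y := by
  obtain ⟨B, J, _, _, _, _, pl, π, hJ, hq, hπ⟩ := exists_quotient hA hA0 hP hm0 hm hd he hc hAc l0
  subst hJ
  have hY : IsZeroSet (vset A pl) := isZeroSet_vset A pl
  have hn := card_zer (K := K) hA hA0
  constructor
  · intro hdet y
    let e : J ≃ Fin (Fintype.card J) := Fintype.equivFin J
    have hs : ∀ {ζ : k}, A.eval ζ = 0 → (lst ζ : Set (VI J B → k)) ⊆ vl A pl [] :=
      fun h => (lst_sub hA0 h).trans (vl_sub _)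
    have hs' : ∀ {ζ : k}, A.eval ζ = 0 → (lst ζ : Set (VI J B → k)) ⊆ bot A pl := fun h => lst_sub hA0 h
    have hB : IsZeroSet (bot A pl) := isZeroSet_vl A pl _
    obtain ⟨w, hw, hwy⟩ := exists_det hC.target hA hA0 hc hAc hq hπ (dif e ζ (vset A pl) y)
      (nm_dif (l := []) hC.target hA hA0 e hs hζ y)
    obtain ⟨x, hx, hxw⟩ := hdet w hw
    have h1 : nm C.G A (vset A pl) (C.G.push _ _ π x) = 0 := by
      rw [nm_push hC.source hA hA0 hc hAc hq hπ x, hx.2, map_zero]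
    obtain ⟨u, hu0, hu⟩ := exists_norm_zero_vl hC.source hA hA0 (univ : Finset J).toList _ h1
    change C.G.H (bot A pl) at u
    have h2 : C.cl (bot A pl) u = dif e ζ (bot A pl) y := by
      have h3 : nm C.T A (bot A pl) (C.cl (bot A pl) u - dif e ζ (bot A pl) y) = 0 := by
        have h4 := cl_nm hC hA hA0 (univ : Finset J).toList u
        rw [hu0, map_zero] at h4
        change 0 = nm C.T A (bot A pl) (C.cl (bot A pl) u) at h4
        have h5 : nm C.T A (bot A pl) (dif e ζ (bot A pl) y) = 0 := nm_dif hC.target hA hA0 e hs' hζ y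
        rw [map_sub, ← h4, h5, sub_self]
      refine sub_eq_zero.mp (norm_zero_inj_vl hC.target hA hA0 _ _ h3 ?_)
      change C.T.incl (bot A pl) (vset A pl) (C.cl (bot A pl) u - dif e ζ (bot A pl) y) = 0
      have h6 : C.T.incl (bot A pl) (vset A pl) (C.cl (bot A pl) u) = dif e ζ (vset A pl) y := by
        have h9 := hC.inc (bot A pl) (vset A pl) hB hY (vl_sub _) u
        change C.G.incl (bot A pl) (vset A pl) u = _ at hu
        rw [← h9, hu, hC.img _ _ π hq.2.1 hY hq.2.2.2.1 x, hxw, hwy]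
      rw [map_sub, h6]
      unfold dif
      rw [map_sub, incl_push hC.target e hB hY (hs' hζ) (vl_sub _),
        incl_push hC.target e hB hY (hs' hA.map_zero) (vl_sub _), sub_self]
    obtain ⟨v, hv⟩ := hC.source.add.onto (zer A) lst _ (isUnion_bot (pl := pl) hA0) u
    have h7 : ∑ ξ ∈ zer A, C.T.inc (lst ξ) (bot A pl) (C.cl (lst ξ) (v ξ)) = dif e ζ (bot A pl) y := by
      rw [← h2, ← hv, map_sum]
      exact Finset.sum_congr rfl fun ξ hξ => (hC.inc _ _ (isZeroSet_lst ξ) hB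
        (hs' ((mem_zer hA0).mp hξ)) (v ξ)).symm
    have h8 := comp_dif (pl := pl) hC.target hA hA0 e hζ hζ0 y (fun ξ => C.cl (lst ξ) (v ξ)) h7
    refine ⟨C.G.push _ _ (rap e) (v ζ), ?_⟩
    rw [hC.img _ _ _ (isZeroSet_lst ζ) isZeroSet_univ (fin_rap e ζ)]
    exact h8
  · intro hcell y hy
    have hcell' : C.CellsOnto (Fintype.card J) := cellsOnto hC hcell
    have h1 := nm_push hC.target hA hA0 hc hAc hq hπ y
    rw [hy.2, map_zero] at h1
    obtain ⟨z, hz⟩ := gOnto_vset hC hA hA0 pl hcell' _ h1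
    -- make the norm of `z` zero
    have h2 : C.cl (vset A pl) (nm C.G A (vset A pl) z) = 0 := by
      have h3 := cl_nm hC hA hA0 (pl := pl) [] z
      change C.cl (vset A pl) (nm C.G A (vset A pl) z) = nm C.T A (vset A pl) (C.cl (vset A pl) z) at h3
      rw [h3, hz, h1]
    have h4 : nm C.G A (vset A pl) (z - ((zer A).card : K)⁻¹ • nm C.G A (vset A pl) z) = 0 := by
      have h5 : nm C.G A (vset A pl) (nm C.G A (vset A pl) z) =
          ((zer A).card : K) • nm C.G A (vset A pl) z := nm_nm hC.source hA hA0 (pl := pl) [] z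
      rw [map_sub, map_smul, h5, smul_smul, inv_mul_cancel₀ hn, one_smul, sub_self]
    obtain ⟨x, hx, hxz⟩ := exists_det hC.source hA hA0 hc hAc hq hπ _ h4
    refine ⟨x, hx, ?_⟩
    have h6 := cl_det hC hA hA0 hx
    have h7 : Det C.T A f0 f P c l0 (C.cl _ x - y) := by
      refine ⟨fun σ α hα hα0 => ?_, ?_⟩
      · rw [map_sub, h6.1 σ α hα hα0, hy.1 σ α hα hα0]
      · simp only [map_sub, Finset.sum_sub_distrib]
        rw [h6.2, hy.2, sub_self]
    refine sub_eq_zero.mp (push_inj hC.target hA0 hq h7 ?_)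
    rw [map_sub, ← hC.img _ _ π hq.2.1 hY hq.2.2.2.1, hxz, map_sub, map_smul, h2, smul_zero, sub_zero, hz,
      sub_self]

end Pool.Agent.U436.CS
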