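import Pool.Agent.U436.CS.Rel

/-!
# The determinant part is a direct sum of copies of the homology of an affine space
-/

set_option autoImplicit false

namespace Pool.Agent.U436.CS

open Finset Pool.Agent.U436 Pool.Agent.U436.AS Pool.Agent.U436.CP
open Pool.Agent.U436.CT hiding VI ia ib iz iv vset vl tau tau_iz tau_ia tau_ib tau_iv tau_tau tau_zero mem_vl isZeroSet_vset
  isZeroSet_vl isPolMap_tau tau_mem isAut_tau isLineAut

variable {k : Type} [Field k] {K : Type} [Field K] {A : Polynomial k}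

/-- The zeros of `A` different from zero. -/
def NZ (A : Polynomial k) : Type := {ζ : k // A.eval ζ = 0 ∧ ζ ≠ 0}

lemma finite_nz (hA0 : A ≠ 0) : Finite (NZ A) := by
  have h1 : Function.Injective fun ζ : NZ A => (⟨ζ.1, (mem_zer hA0).mpr ζ.2.1⟩ : {ζ : k // ζ ∈ zer A}) := by
    intro ζ ξ h
    exact Subtype.ext (congrArg (fun w : {ζ : k // ζ ∈ zer A} => w.1) h)
  exact Finite.of_injective _ h1

/-- Sums over the zeros of `A`. -/
lemma sum_zer {V : Type} [AddCommMonoid V] [Fintype (NZ A)] (hA : IsAdditive A) (hA0 : A ≠ 0) (g : k → V) :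
    ∑ ξ ∈ zer A, g ξ = g 0 + ∑ ζ : NZ A, g ζ.1 := by
  classical
  have h0 : (0 : k) ∈ zer A := (mem_zer hA0).mpr hA.map_zero
  rw [← Finset.add_sum_erase _ _ h0]
  congr 1
  refine (Finset.sum_bij (fun (ζ : NZ A) _ => ζ.1) (fun ζ _ => ?_) (fun ζ _ ξ _ h => Subtype.ext h)
    (fun ξ hξ => ?_) fun _ _ => rfl).symm
  · exact Finset.mem_erase.mpr ⟨ζ.2.2, (mem_zer hA0).mpr ζ.2.1⟩
  · obtain ⟨h1, h2⟩ := Finset.mem_erase.mp hξ
    exact ⟨⟨ξ, (mem_zer hA0).mp h2, h1⟩, mem_univ _, rfl⟩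

section vset

variable {J : Type} [Fintype J] [DecidableEq J] {B : Type} [Finite B] [DecidableEq B]
  {T : Homology k K} {C : CycleMap k K} {pl : B → J} {n : ℕ}

/-- The sum of the differences of the copies of the classes `y ζ`. -/
noncomputable def dsum [Fintype (NZ A)] (T : Homology k K) (e : J ≃ Fin n) (X : Set (VI J B → k)) :
    (NZ A → T.H (Set.univ : Set (Fin n → k))) →ₗ[K] T.H X :=
  ∑ ζ : NZ A, (T.push _ X (par e ζ.1) - T.push _ X (par e 0)) ∘ₗ LinearMap.proj ζ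

omit [Fintype J] [DecidableEq J] [Finite B] [DecidableEq B] in
lemma dsum_apply [Fintype (NZ A)] (e : J ≃ Fin n) (X : Set (VI J B → k))
    (y : NZ A → T.H (Set.univ : Set (Fin n → k))) :
    dsum T e X y = ∑ ζ : NZ A, dif e ζ.1 X (y ζ) := by
  unfold dsum
  rw [LinearMap.sum_apply]
  rfl

lemma push_par_rap (hT : T.IsBorelMoore) (e : J ≃ Fin n) (ζ : k) (v : T.H (lst ζ : Set (VI J B → k))) :
    T.push _ (lst ζ : Set (VI J B → k)) (par e ζ) (T.push _ (Set.univ : Set (Fin n → k)) (rap e) v) = v := by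
  have h1 : IsFiniteMap (lst ζ : Set (VI J B → k)) (lst ζ : Set (VI J B → k))
      fun w => par e ζ (rap e w) := by
    refine ⟨fun i => (isPolMap_par e ζ i).comp (isPolMap_rap e), fun w _ => par_mem e ζ _, fun i => ?_⟩
    exact Itg.of_pol (F := fun w : VI J B → k => w i) (IsPol.coord i) fun w hw => by
      show w i = par e ζ (rap e w) i
      rw [par_rap e hw]
  exact (hT.functor.img_img _ _ _ _ _ (isZeroSet_lst ζ) isZeroSet_univ (isZeroSet_lst ζ)
    (fin_rap e ζ) (fin_par e subset_rfl) v).trans ((hT.functor.img_eq _ _ _ _ (isZeroSet_lst ζ)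
      (isZeroSet_lst ζ) h1 (fin_incl subset_rfl) (fun w hw => par_rap e hw) v).trans
        (hT.functor.img_id _ (isZeroSet_lst ζ) v))

/-- The components of a class on the last stratum. -/
lemma comp_bot (hT : T.IsBorelMoore) (hA0 : A ≠ 0) (e : J ≃ Fin n)
    (y : k → T.H (Set.univ : Set (Fin n → k)))
    (h : ∑ ξ ∈ zer A, T.push _ (bot A pl) (par e ξ) (y ξ) = 0) : ∀ ξ ∈ zer A, y ξ = 0 := by
  have hU := isUnion_bot (pl := pl) hA0
  have hB : IsZeroSet (bot A pl) := isZeroSet_vl A pl _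
  have h1 : ∑ ξ ∈ zer A, T.inc (lst ξ) (bot A pl) (T.push _ (lst ξ) (par e ξ) (y ξ)) = 0 := by
    rw [← h]
    exact Finset.sum_congr rfl fun ξ hξ => incl_push hT e (isZeroSet_lst ξ) hB subset_rfl
      (lst_sub hA0 ((mem_zer hA0).mp hξ)) (y ξ)
  intro ξ hξ
  have h2 := hT.add.inj (zer A) lst _ hU _ h1 ξ hξ
  rw [← push_rap_par (B := B) hT e ξ (y ξ), h2, map_zero]

lemma exists_comp (hT : T.IsBorelMoore) (hA0 : A ≠ 0) (e : J ≃ Fin n) (u : T.H (bot A pl)) :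
    ∃ y : k → T.H (Set.univ : Set (Fin n → k)), ∑ ξ ∈ zer A, T.push _ (bot A pl) (par e ξ) (y ξ) = u := by
  have hB : IsZeroSet (bot A pl) := isZeroSet_vl A pl _
  obtain ⟨v, hv⟩ := hT.add.onto (zer A) lst _ (isUnion_bot (pl := pl) hA0) u
  refine ⟨fun ξ => T.push _ _ (rap e) (v ξ), ?_⟩
  rw [← hv]
  refine Finset.sum_congr rfl fun ξ hξ => ?_
  rw [← incl_push hT e (isZeroSet_lst ξ) hB subset_rfl (lst_sub hA0 ((mem_zer hA0).mp hξ)),
    push_par_rap hT e ξ (v ξ)]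

lemma nm_sum (hT : T.IsBorelMoore) (hA : IsAdditive A) (hA0 : A ≠ 0) (e : J ≃ Fin n)
    (y : k → T.H (Set.univ : Set (Fin n → k))) :
    nm T A (bot A pl) (∑ ξ ∈ zer A, T.push _ (bot A pl) (par e ξ) (y ξ)) =
      ∑ η ∈ zer A, T.push _ (bot A pl) (par e η) (∑ ξ ∈ zer A, y ξ) := by
  rw [map_sum]
  have h1 : ∀ ξ ∈ zer A, nm T A (bot A pl) (T.push _ (bot A pl) (par e ξ) (y ξ)) =
      ∑ η ∈ zer A, T.push _ (bot A pl) (par e η) (y ξ) := fun ξ hξ =>
    nm_par hT hA hA0 e (fun h => lst_sub hA0 h) ((mem_zer hA0).mp hξ) (y ξ)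
  rw [Finset.sum_congr rfl h1, Finset.sum_comm]
  exact Finset.sum_congr rfl fun η _ => (map_sum _ _ _).symm

/-- **The classes of norm zero on `A (z) = ∑ a j * b j` are the sums of differences of copies.** -/
theorem exists_dsum [CharZero K] [Fintype (NZ A)] (hT : T.IsBorelMoore) (hA : IsAdditive A) (hA0 : A ≠ 0)
    (e : J ≃ Fin n) (x : T.H (vset A pl)) (hx : nm T A (vset A pl) x = 0) :
    ∃ y : NZ A → T.H (Set.univ : Set (Fin n → k)), dsum T e (vset A pl) y = x := by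
  have hB : IsZeroSet (bot A pl) := isZeroSet_vl A pl _
  have hY : IsZeroSet (vset A pl) := isZeroSet_vset A pl
  obtain ⟨u, hu0, hu⟩ := exists_norm_zero_vl hT hA hA0 (univ : Finset J).toList x hx
  obtain ⟨y, hy⟩ := exists_comp (pl := pl) hT hA0 e u
  have h0 : (0 : k) ∈ zer A := (mem_zer hA0).mpr hA.map_zero
  have h1 : ∑ ξ ∈ zer A, y ξ = 0 := by
    have h2 := nm_sum (pl := pl) hT hA hA0 e y
    rw [hy] at h2
    change nm T A (bot A pl) u = 0 at hu0
    rw [hu0] at h2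
    exact comp_bot (pl := pl) hT hA0 e (fun _ => ∑ ξ ∈ zer A, y ξ) h2.symm 0 h0
  refine ⟨fun ζ => y ζ.1, ?_⟩
  have h3 : ∀ ξ ∈ zer A, T.incl (bot A pl) (vset A pl) (T.push _ (bot A pl) (par e ξ) (y ξ)) =
      T.push _ (vset A pl) (par e ξ) (y ξ) := fun ξ hξ =>
    incl_push hT e hB hY (lst_sub hA0 ((mem_zer hA0).mp hξ)) (vl_sub _) (y ξ)
  have h4 : x = ∑ ξ ∈ zer A, T.push _ (vset A pl) (par e ξ) (y ξ) := by
    rw [← hu, ← hy]
    change T.incl (bot A pl) (vset A pl) _ = _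
    rw [map_sum, Finset.sum_congr rfl h3]
  rw [sum_zer hA hA0] at h1 h4
  rw [dsum_apply, h4]
  have h5 : y 0 = -∑ ζ : NZ A, y ζ.1 := eq_neg_of_add_eq_zero_left h1
  rw [h5, map_neg, map_sum, ← Finset.sum_neg_distrib, ← Finset.sum_add_distrib]
  refine Finset.sum_congr rfl fun ζ _ => ?_
  unfold dif
  abel

lemma nm_dsum [Fintype (NZ A)] (hT : T.IsBorelMoore) (hA : IsAdditive A) (hA0 : A ≠ 0)
    (e : J ≃ Fin n) (y : NZ A → T.H (Set.univ : Set (Fin n → k))) :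
    nm T A (vset A pl) (dsum T e (vset A pl) y) = 0 := by
  rw [dsum_apply, map_sum]
  exact Finset.sum_eq_zero fun ζ _ => nm_dif (l := []) hT hA hA0 e
    (fun h => (lst_sub hA0 h).trans (vl_sub _)) ζ.2.1 (y ζ)

theorem dsum_inj [CharZero K] [Fintype (NZ A)] (hT : T.IsBorelMoore) (hA : IsAdditive A) (hA0 : A ≠ 0)
    (e : J ≃ Fin n) (y : NZ A → T.H (Set.univ : Set (Fin n → k))) (h : dsum T e (vset A pl) y = 0) :
    y = 0 := by
  have hB : IsZeroSet (bot A pl) := isZeroSet_vl A pl _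
  have hY : IsZeroSet (vset A pl) := isZeroSet_vset A pl
  have h1 : ∑ ζ : NZ A, dif e ζ.1 (bot A pl) (y ζ) = 0 := by
    refine norm_zero_inj_vl hT hA hA0 (univ : Finset J).toList _ ?_ ?_
    · change nm T A (bot A pl) (∑ ζ : NZ A, dif e ζ.1 (bot A pl) (y ζ)) = 0
      rw [map_sum]
      exact Finset.sum_eq_zero fun ζ _ => nm_dif hT hA hA0 e (fun h => lst_sub hA0 h) ζ.2.1 (y ζ)
    · change T.incl (bot A pl) (vset A pl) (∑ ζ : NZ A, dif e ζ.1 (bot A pl) (y ζ)) = 0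
      rw [map_sum, ← h, dsum_apply]
      refine Finset.sum_congr rfl fun ζ _ => ?_
      unfold dif
      rw [map_sub, incl_push hT e hB hY (lst_sub hA0 ζ.2.1) (vl_sub _),
        incl_push hT e hB hY (lst_sub hA0 hA.map_zero) (vl_sub _)]
  classical
  let w : k → T.H (Set.univ : Set (Fin n → k)) := fun ξ =>
    if h : A.eval ξ = 0 ∧ ξ ≠ 0 then y ⟨ξ, h⟩ else -∑ ζ : NZ A, y ζ
  have hw : ∀ ζ : NZ A, w ζ.1 = y ζ := fun ζ => dif_pos ζ.2
  have hw0 : w 0 = -∑ ζ : NZ A, y ζ := dif_neg fun h => h.2 rfl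
  have h2 : ∑ ξ ∈ zer A, T.push _ (bot A pl) (par e ξ) (w ξ) = 0 := by
    rw [sum_zer hA hA0, hw0, map_neg, map_sum, ← Finset.sum_neg_distrib, ← Finset.sum_add_distrib, ← h1]
    refine Finset.sum_congr rfl fun ζ _ => ?_
    rw [hw]
    unfold dif
    abel
  funext ζ
  rw [← hw ζ, comp_bot (pl := pl) hT hA0 e w h2 ζ.1 ((mem_zer hA0).mpr ζ.2.1)]
  rfl

lemma cl_dsum [Fintype (NZ A)] (hC : C.IsBorelMoore) (hA : IsAdditive A) (hA0 : A ≠ 0)
    (e : J ≃ Fin n) (y : NZ A → C.G.H (Set.univ : Set (Fin n → k))) :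
    C.cl (vset A pl) (dsum C.G e (vset A pl) y) = dsum C.T e (vset A pl) fun ζ => C.cl _ (y ζ) := by
  rw [dsum_apply, dsum_apply, map_sum]
  exact Finset.sum_congr rfl fun ζ _ => cl_dif hC e (isZeroSet_vset A pl)
    ((lst_sub hA0 ζ.2.1).trans (vl_sub _)) ((lst_sub hA0 hA.map_zero).trans (vl_sub _)) (y ζ)

end vset

end Pool.Agent.U436.CS
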