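import Pool.Agent.U436.CS.Iso

/-!
# The determinant part of every homology theory
-/

set_option autoImplicit false

namespace Pool.Agent.U436.CS

open Finset Pool.Agent.U436 Pool.Agent.U436.AS Pool.Agent.U436.CP
open Pool.Agent.U436.CT hiding VI ia ib iz iv vset vl tau tau_iz tau_ia tau_ib tau_iv tau_tau tau_zero mem_vl isZeroSet_vset
  isZeroSet_vl isPolMap_tau tau_mem isAut_tau isLineAut

variable {k : Type} [Field k] {M : ℕ} {N d : Fin M → ℕ} {K : Type} [Field K] {A : Polynomial k}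
  {f0 : Fin M → Polynomial k} {f : (j : Fin M) → Fin (N j) → Polynomial k} {P : (j : Fin M) → Fin (N j) → k}
  {c : Fin M → k}

/-- The determinant part. -/
def detM (T : Homology k K) (A : Polynomial k) (f0 : Fin M → Polynomial k)
    (f : (j : Fin M) → Fin (N j) → Polynomial k) (P : (j : Fin M) → Fin (N j) → k) (c : Fin M → k)
    (l0 : LL d) : Submodule K (T.H (ppow A f0 f P d)) where
  carrier := {x | Det T A f0 f P c l0 x}
  zero_mem' := ⟨fun _ _ _ _ => map_zero _, Finset.sum_eq_zero fun _ _ => map_zero _⟩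
  add_mem' := by
    intro x y hx hy
    refine ⟨fun σ α hα hα0 => ?_, ?_⟩
    · rw [map_add, hx.1 σ α hα hα0, hy.1 σ α hα hα0]
    · simp only [map_add, Finset.sum_add_distrib]
      rw [hx.2, hy.2, add_zero]
  smul_mem' := by
    intro r x hx
    refine ⟨fun σ α hα hα0 => ?_, ?_⟩
    · rw [map_smul, hx.1 σ α hα hα0]
    · simp only [map_smul]
      rw [← Finset.smul_sum, hx.2, smul_zero]

variable {B J : Type} [Fintype J] [DecidableEq J] [Finite B] [DecidableEq B] {pl : B → J} {n : ℕ}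

/-- The direct image of the determinant part. -/
def pushM (T : Homology k K) (A : Polynomial k) (f0 : Fin M → Polynomial k)
    (f : (j : Fin M) → Fin (N j) → Polynomial k) (P : (j : Fin M) → Fin (N j) → k) (c : Fin M → k)
    (l0 : LL d) (pl : B → J) (π : (PI d N → k) → VI J B → k) :
    detM T A f0 f P c l0 →ₗ[K] T.H (vset A pl) := (T.push _ (vset A pl) π) ∘ₗ (detM T A f0 f P c l0).subtype

lemma range_eq [CharZero K] [Fintype (NZ A)] {T : Homology k K} (hT : T.IsBorelMoore) (hA : IsAdditive A)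
    (hA0 : A ≠ 0) (hc : ∀ j, c j ≠ 0) (hAc : ∀ j y, A.eval (c j * y) = c j * A.eval y) {l0 : LL d}
    {π : (PI d N → k) → VI J B → k}
    (hq : IsQuotient (ppow A f0 f P d) (vset A pl) π (Gam A c d) (fun γ => prho γ.1.1 fun l => (γ.1.2 l : k)))
    (hπ : ∀ ζ w, π (prho (fun _ => 1) (Pi.single l0 ζ) w) = tau (c l0.1 * ζ) (π w)) (e : J ≃ Fin n) :
    LinearMap.range (pushM T A f0 f P c l0 pl π) = LinearMap.range (dsum (A := A) T e (vset A pl)) := by
  ext z
  constructor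
  · rintro ⟨x, rfl⟩
    refine exists_dsum hT hA hA0 e _ ?_
    show nm T A (vset A pl) (T.push _ _ π x.1) = 0
    rw [nm_push hT hA hA0 hc hAc hq hπ, x.2.2, map_zero]
  · rintro ⟨y, rfl⟩
    obtain ⟨x, hx, hxz⟩ := exists_det hT hA hA0 hc hAc hq hπ _ (nm_dsum hT hA hA0 e y)
    exact ⟨⟨x, hx⟩, hxz⟩

lemma pushM_inj {T : Homology k K} (hT : T.IsBorelMoore) (hA0 : A ≠ 0) {l0 : LL d}
    {π : (PI d N → k) → VI J B → k}
    (hq : IsQuotient (ppow A f0 f P d) (vset A pl) π (Gam A c d) (fun γ => prho γ.1.1 fun l => (γ.1.2 l : k))) :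
    Function.Injective (pushM T A f0 f P c l0 pl π) := by
  refine (injective_iff_map_eq_zero _).mpr fun x hx => ?_
  exact Subtype.ext (push_inj hT hA0 hq x.2 hx)

lemma dsum_injective [CharZero K] [Fintype (NZ A)] {T : Homology k K} (hT : T.IsBorelMoore)
    (hA : IsAdditive A) (hA0 : A ≠ 0) (e : J ≃ Fin n) :
    Function.Injective (dsum (A := A) T e (vset A pl)) :=
  (injective_iff_map_eq_zero _).mpr fun y hy => dsum_inj hT hA hA0 e y hy

/-- The isomorphism. -/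
noncomputable def detE [CharZero K] [Fintype (NZ A)] {T : Homology k K} (hT : T.IsBorelMoore)
    (hA : IsAdditive A) (hA0 : A ≠ 0) (hc : ∀ j, c j ≠ 0)
    (hAc : ∀ j y, A.eval (c j * y) = c j * A.eval y) {l0 : LL d} {π : (PI d N → k) → VI J B → k}
    (hq : IsQuotient (ppow A f0 f P d) (vset A pl) π (Gam A c d) (fun γ => prho γ.1.1 fun l => (γ.1.2 l : k)))
    (hπ : ∀ ζ w, π (prho (fun _ => 1) (Pi.single l0 ζ) w) = tau (c l0.1 * ζ) (π w)) (e : J ≃ Fin n) :
    detM T A f0 f P c l0 ≃ₗ[K] (NZ A → T.H (Set.univ : Set (Fin n → k))) :=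
  (LinearEquiv.ofInjective (pushM T A f0 f P c l0 pl π) (pushM_inj hT hA0 hq)).trans
    ((LinearEquiv.ofEq _ _ (range_eq hT hA hA0 hc hAc hq hπ e)).trans
      (LinearEquiv.ofInjective (dsum (A := A) T e (vset A pl)) (dsum_injective hT hA hA0 e)).symm)

lemma dsum_detE [CharZero K] [Fintype (NZ A)] {T : Homology k K} (hT : T.IsBorelMoore)
    (hA : IsAdditive A) (hA0 : A ≠ 0) (hc : ∀ j, c j ≠ 0)
    (hAc : ∀ j y, A.eval (c j * y) = c j * A.eval y) {l0 : LL d} {π : (PI d N → k) → VI J B → k}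
    (hq : IsQuotient (ppow A f0 f P d) (vset A pl) π (Gam A c d) (fun γ => prho γ.1.1 fun l => (γ.1.2 l : k)))
    (hπ : ∀ ζ w, π (prho (fun _ => 1) (Pi.single l0 ζ) w) = tau (c l0.1 * ζ) (π w)) (e : J ≃ Fin n)
    (x : detM T A f0 f P c l0) :
    dsum T e (vset A pl) (detE hT hA hA0 hc hAc hq hπ e x) = T.push _ _ π x.1 := by
  have h1 := (LinearEquiv.ofInjective (dsum (A := A) T e (vset A pl))
    (dsum_injective hT hA hA0 e)).apply_symm_apply (LinearEquiv.ofEq _ _ (range_eq hT hA hA0 hc hAc hq hπ e)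
      (LinearEquiv.ofInjective (pushM T A f0 f P c l0 pl π) (pushM_inj hT hA0 hq) x))
  exact congrArg Subtype.val h1

variable [IsAlgClosed k] [CharZero K]

/-- **The determinant part is, naturally, a direct sum of copies of the homology of the affine space.** -/
theorem det_iso {C : CycleMap k K} (hC : C.IsBorelMoore) (hA : IsAdditive A)
    (hA0 : A ≠ 0) (hP : ∀ j, Function.Injective (P j)) (hm0 : ∀ j, ((f0 j).natDegree : k) ≠ 0)
    (hm : ∀ j i, ((f j i).natDegree : k) ≠ 0)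
    (hd : ∀ j, d j + 1 = (f0 j).natDegree + ∑ i, ((f j i).natDegree + 1)) {n : ℕ} (he : ∑ j, d j = 2 * n)
    (hc : ∀ j, c j ≠ 0) (hAc : ∀ j y, A.eval (c j * y) = c j * A.eval y) (l0 : LL d) :
    ∃ (eG : detM C.G A f0 f P c l0 ≃ₗ[K] (NZ A → C.G.H (Set.univ : Set (Fin n → k))))
      (eT : detM C.T A f0 f P c l0 ≃ₗ[K] (NZ A → C.T.H (Set.univ : Set (Fin n → k)))),
      ∀ x : detM C.G A f0 f P c l0, ∃ hx : C.cl _ x.1 ∈ detM C.T A f0 f P c l0,
        ∀ ζ, eT ⟨C.cl _ x.1, hx⟩ ζ = C.cl _ (eG x ζ) := by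
  obtain ⟨B, J, _, _, _, _, pl, π, hJ, hq, hπ⟩ := exists_quotient hA hA0 hP hm0 hm hd he hc hAc l0
  let e : J ≃ Fin n := Fintype.equivFinOfCardEq hJ
  have := finite_nz (A := A) hA0
  let _ : Fintype (NZ A) := Fintype.ofFinite _
  refine ⟨detE hC.source hA hA0 hc hAc hq hπ e, detE hC.target hA hA0 hc hAc hq hπ e, fun x => ?_⟩
  have hx : C.cl _ x.1 ∈ detM C.T A f0 f P c l0 := cl_det hC hA hA0 x.2
  refine ⟨hx, fun ζ => ?_⟩
  have h1 : detE hC.target hA hA0 hc hAc hq hπ e ⟨C.cl _ x.1, hx⟩ =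
      fun ζ => C.cl _ (detE hC.source hA hA0 hc hAc hq hπ e x ζ) := by
    refine dsum_injective (pl := pl) hC.target hA hA0 e ?_
    rw [dsum_detE, ← cl_dsum hC hA hA0 e, dsum_detE]
    exact (hC.img _ _ π hq.2.1 (isZeroSet_vset A pl) hq.2.2.2.1 x.1).symm
  rw [h1]

/-! ### Products with `S` -/

variable {τ : Type} {S : Set (τ → k)}

/-- The determinant part for the product with `S`. -/
def detS (T : Homology k K) (A : Polynomial k) (f0 : Fin M → Polynomial k)
    (f : (j : Fin M) → Fin (N j) → Polynomial k) (P : (j : Fin M) → Fin (N j) → k) (c : Fin M → k)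
    (S : Set (τ → k)) (l0 : LL d) : Submodule K (T.H (tms (ppow A f0 f P d) S)) where
  carrier := {x | IsDet T A f0 f P c S l0 x}
  zero_mem' := (detM (T.times S) A f0 f P c l0).zero_mem'
  add_mem' := fun hx hy => (detM (T.times S) A f0 f P c l0).add_mem' hx hy
  smul_mem' := fun r _ hx => (detM (T.times S) A f0 f P c l0).smul_mem' r hx

theorem detS_iso {C : CycleMap k K} (hC : C.IsBorelMoore) (hA : IsAdditive A)
    (hA0 : A ≠ 0) (hP : ∀ j, Function.Injective (P j)) (hm0 : ∀ j, ((f0 j).natDegree : k) ≠ 0)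
    (hm : ∀ j i, ((f j i).natDegree : k) ≠ 0)
    (hd : ∀ j, d j + 1 = (f0 j).natDegree + ∑ i, ((f j i).natDegree + 1)) {n : ℕ} (he : ∑ j, d j = 2 * n)
    (hc : ∀ j, c j ≠ 0) (hAc : ∀ j y, A.eval (c j * y) = c j * A.eval y) [Finite τ] (hS : IsZeroSet S)
    (l0 : LL d) :
    ∃ (eG : detS C.G A f0 f P c S l0 ≃ₗ[K] (NZ A → C.G.H (affS n S)))
      (eT : detS C.T A f0 f P c S l0 ≃ₗ[K] (NZ A → C.T.H (affS n S))),
      ∀ x : detS C.G A f0 f P c S l0, ∃ hx : C.cyc _ x.1 ∈ detS C.T A f0 f P c S l0,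
        ∀ ζ, eT ⟨C.cyc _ x.1, hx⟩ ζ = C.cyc (affS n S) (eG x ζ) :=
  det_iso (C := C.times S) (hC.times hS) hA hA0 hP hm0 hm hd he hc hAc l0

end Pool.Agent.U436.CS
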