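import Pool.Agent.U436.CS.Span

/-!
# The determinant part of the homology of the products of powers of coverings
-/

set_option autoImplicit false

namespace Pool.Agent.U436.CS

open Finset Pool.Agent.U436 Pool.Agent.U436.AS Pool.Agent.U436.CP
open Pool.Agent.U436.CT hiding VI ia ib iz iv vset vl tau tau_iz tau_ia tau_ib tau_iv tau_tau tau_zero mem_vl isZeroSet_vset
  isZeroSet_vl isPolMap_tau tau_mem isAut_tau isLineAut

variable {k : Type} [Field k] {M : ℕ} {N d : Fin M → ℕ}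

/-- The map of the product of powers to the variety `A (z) = ∑ a j * b j`. -/
theorem exists_quotient [IsAlgClosed k] {A : Polynomial k} (hA : IsAdditive A) (hA0 : A ≠ 0)
    {f0 : Fin M → Polynomial k} {f : (j : Fin M) → Fin (N j) → Polynomial k}
    {P : (j : Fin M) → Fin (N j) → k} (hP : ∀ j, Function.Injective (P j))
    (hm0 : ∀ j, ((f0 j).natDegree : k) ≠ 0) (hm : ∀ j i, ((f j i).natDegree : k) ≠ 0)
    (hd : ∀ j, d j + 1 = (f0 j).natDegree + ∑ i, ((f j i).natDegree + 1)) {n : ℕ} (he : ∑ j, d j = 2 * n)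
    {c : Fin M → k} (hc : ∀ j, c j ≠ 0) (hAc : ∀ j y, A.eval (c j * y) = c j * A.eval y) (l0 : LL d) :
    ∃ (B J : Type) (_ : Fintype J) (_ : DecidableEq J) (_ : Finite B) (_ : DecidableEq B) (pl : B → J)
      (π : (PI d N → k) → VI J B → k), Fintype.card J = n ∧
      IsQuotient (ppow A f0 f P d) (vset A pl) π (Gam A c d) (fun γ => prho γ.1.1 fun l => (γ.1.2 l : k)) ∧
      ∀ ζ w, π (prho (fun _ => 1) (Pi.single l0 ζ) w) = tau (c l0.1 * ζ) (π w) := by
  have h01 : ∀ j, 1 ≤ (f0 j).natDegree := by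
    intro j
    by_contra h
    exact hm0 j (by rw [show (f0 j).natDegree = 0 by omega, Nat.cast_zero])
  have hi1 : ∀ j i, 1 ≤ (f j i).natDegree := by
    intro j i
    by_contra h
    exact hm j i (by rw [show (f j i).natDegree = 0 by omega, Nat.cast_zero])
  let r0 : Fin M → ℕ := fun j => ((f0 j).natDegree - 1) / 2
  let ε0 : Fin M → ℕ := fun j => ((f0 j).natDegree - 1) % 2
  let r : (j : Fin M) → Fin (N j) → ℕ := fun j i => ((f j i).natDegree - 1) / 2
  let ε : (j : Fin M) → Fin (N j) → ℕ := fun j i => ((f j i).natDegree - 1) % 2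
  have e0 : ∀ j, (f0 j).natDegree = r0 j + ε0 j + r0 j + 1 := by
    intro j
    have := h01 j
    simp only [r0, ε0]
    omega
  have ei : ∀ j i, (f j i).natDegree = r j i + ε j i + r j i + 1 := by
    intro j i
    have := hi1 j i
    simp only [r, ε]
    omega
  have hε0 : ∀ j, ε0 j ≤ 1 := fun j => by simp only [ε0]; omega
  have hε : ∀ j i, ε j i ≤ 1 := fun j i => by simp only [ε]; omega
  have hd' : ∀ j, d j = dd (r0 j) (ε0 j) (r j) (ε j) 0 := by
    intro j
    have h3 : ∑ i : Fin (N j) ⊕ Fin 0, ee (r j) (ε j) i = ∑ i : Fin (N j), ((f j i).natDegree + 1) := by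
      rw [Fintype.sum_sum_type]
      simp only [Finset.univ_eq_empty, Finset.sum_empty, add_zero]
      exact Finset.sum_congr rfl fun i _ => by rw [ei j i]; rfl
    show d j = r0 j + ε0 j + r0 j + ∑ i : Fin (N j) ⊕ Fin 0, ee (r j) (ε j) i
    rw [h3]
    have := hd j
    have := e0 j
    omega
  have h5 : ∀ j, d j = (ε0 j + ∑ i, ε j i) + 2 * (r0 j + (∑ i, r j i + N j)) := by
    intro j
    have h4 : ∑ i, ((f j i).natDegree + 1) = ∑ i, ε j i + 2 * (∑ i, r j i + N j) := by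
      have h6 : ∀ i ∈ (univ : Finset (Fin (N j))), (f j i).natDegree + 1 = ε j i + 2 * (r j i + 1) :=
        fun i _ => by rw [ei j i]; ring
      rw [Finset.sum_congr rfl h6, Finset.sum_add_distrib, ← Finset.mul_sum, Finset.sum_add_distrib]
      simp
    have := hd j
    have := e0 j
    omega
  have h6 : ∑ j, d j = ∑ j, (ε0 j + ∑ i, ε j i) + 2 * ∑ j, (r0 j + (∑ i, r j i + N j)) := by
    rw [Finset.mul_sum, ← Finset.sum_add_distrib]
    exact Finset.sum_congr rfl fun j _ => h5 j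
  have hs : ∃ s, ∑ j, (ε0 j + ∑ i, ε j i) = 2 * s ∧ n = ∑ j, (r0 j + (∑ i, r j i + N j)) + s :=
    ⟨n - ∑ j, (r0 j + (∑ i, r j i + N j)), by omega, by omega⟩
  obtain ⟨s, hs, hn⟩ := hs
  obtain ⟨κ, lam, Φ, hlam, hΦ, hD, hform⟩ := exists_psplit (s := s) hε0 hε hs e0
    (fun j => by rw [← e0 j]; exact hm0 j) ei (fun j i => by rw [← ei j i]; exact hm j i) hP hc hd'
  obtain ⟨c0, hc0⟩ := hA.surj hA0 κ
  obtain ⟨hΦr, hΦD, Ψ, hΨr, hΨD, hΨΦ, hΦΨ⟩ := hΦ
  choose PΦ hPΦ using hΦr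
  choose PΨ hPΨ using hΨr
  have h : NF f0 f P c κ lam Φ Ψ PΦ PΨ := ⟨hlam, hD, hPΦ, hPΨ, hΨD, hΨΦ, hΦΨ, hform⟩
  refine ⟨BB N, JP r0 r s, inferInstance, inferInstance, inferInstance, inferInstance, plp,
    pmap PΦ c c0 lam, ?_, ⟨inferInstance, isZeroSet_ppow A f0 f P _, isZeroSet_vset A _,
      h.isFiniteMap hA hA0 hAc hc0, fun y hy => h.surj hA hA0 hAc hc hc0 l0 hy,
      fun γ => isAut_prho hA _ fun l => (mem_zer hA0).mp (γ.1.2 l).2, fun w hw w' hw' => ⟨fun e => ?_, ?_⟩⟩,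
      fun ζ w => ?_⟩
  · rw [hn, Fintype.card_sum, Fintype.card_sigma, Fintype.card_fin]
    congr 1
    refine Finset.sum_congr rfl fun j _ => ?_
    rw [Fintype.card_sum, Fintype.card_sum, Fintype.card_sigma]
    simp only [Fintype.card_fin]
  · obtain ⟨σ, α, hα, hα0, e⟩ := h.fibres_mp hA hw hw' e
    exact ⟨⟨(σ, fun l => ⟨α l, (mem_zer hA0).mpr (hα l)⟩), hα0⟩, e⟩
  · rintro ⟨γ, e⟩
    exact h.fibres_mpr hw hw' γ.2 e
  · funext q
    rcases q with q | (q | b)
    · have h5 : tau (c l0.1 * ζ) (pmap PΦ c c0 lam w) (Sum.inl q) = pmap PΦ c c0 lam w (Sum.inl q) :=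
        Function.update_of_ne (by rintro ⟨⟩) _ _
      rw [h5]
      rfl
    · have h5 : tau (c l0.1 * ζ) (pmap PΦ c c0 lam w) iz = pmap PΦ c c0 lam w iz + c l0.1 * ζ := tau_iz _ _
      show ∑ l : LL d, c l.1 * (w (py l) + (Pi.single l0 ζ : LL d → k) l) - c0 =
        tau (c l0.1 * ζ) (pmap PΦ c c0 lam w) iz
      rw [h5]
      have h6 : ∀ l ∈ (univ : Finset (LL d)), c l.1 * (w (py l) + (Pi.single l0 ζ : LL d → k) l) =
          c l.1 * w (py l) + if l = l0 then c l0.1 * ζ else 0 := by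
        intro l _
        by_cases hl : l = l0
        · subst hl
          rw [Pi.single_eq_same, if_pos rfl, mul_add]
        · rw [Pi.single_eq_of_ne hl, if_neg hl, add_zero, add_zero]
      rw [Finset.sum_congr rfl h6, Finset.sum_add_distrib, Finset.sum_ite_eq' univ l0, if_pos (mem_univ _)]
      show _ = ∑ l : LL d, c l.1 * w (py l) - c0 + c l0.1 * ζ
      ring
    · show (lam b)⁻¹ * invp w b = tau (c l0.1 * ζ) (pmap PΦ c c0 lam w) (iv b)
      rw [tau_iv]
      rfl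

variable {K : Type} [Field K] {A : Polynomial k} {f0 : Fin M → Polynomial k}
  {f : (j : Fin M) → Fin (N j) → Polynomial k} {P : (j : Fin M) → Fin (N j) → k} {c : Fin M → k}

/-- The determinant classes. -/
def Det (T : Homology k K) (A : Polynomial k) (f0 : Fin M → Polynomial k)
    (f : (j : Fin M) → Fin (N j) → Polynomial k) (P : (j : Fin M) → Fin (N j) → k) (c : Fin M → k)
    (l0 : LL d) (x : T.H (ppow A f0 f P d)) : Prop :=
  (∀ (σ : (j : Fin M) → Equiv.Perm (Fin (d j))) (α : LL d → k), (∀ l, A.eval (α l) = 0) →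
    ∑ l, c l.1 * α l = 0 → T.act _ (prho σ α) x = x) ∧
  ∑ ζ ∈ zer A, T.act _ (prho (fun _ => 1) (Pi.single l0 ζ)) x = 0

/-- The direct image of a determinant class has norm zero. -/
lemma nm_push {T : Homology k K} (hT : T.IsBorelMoore) (hA : IsAdditive A) (hA0 : A ≠ 0)
    (hc : ∀ j, c j ≠ 0) (hAc : ∀ j y, A.eval (c j * y) = c j * A.eval y) {l0 : LL d} {B J : Type} [Fintype J]
    [DecidableEq J] [Finite B] [DecidableEq B] {pl : B → J} {π : (PI d N → k) → VI J B → k}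
    (hq : IsQuotient (ppow A f0 f P d) (vset A pl) π (Gam A c d) (fun γ => prho γ.1.1 fun l => (γ.1.2 l : k)))
    (hπ : ∀ ζ w, π (prho (fun _ => 1) (Pi.single l0 ζ) w) = tau (c l0.1 * ζ) (π w))
    (x : T.H (ppow A f0 f P d)) :
    nm T A (vset A pl) (T.push _ _ π x) =
      T.push _ _ π (∑ ζ ∈ zer A, T.act _ (prho (fun _ => 1) (Pi.single l0 ζ)) x) := by
  rw [nm_apply, ← sum_scale hA0 (hc l0.1) (hAc l0.1) fun ζ => T.act _ (tau ζ) (T.push _ _ π x), map_sum]
  refine Finset.sum_congr rfl fun ζ hζ => ?_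
  have hζ' := (mem_zer hA0).mp hζ
  have hcζ : A.eval (c l0.1 * ζ) = 0 := by rw [hAc, hζ', mul_zero]
  have hα : ∀ l, A.eval ((Pi.single l0 ζ : LL d → k) l) = 0 := by
    intro l
    by_cases hl : l = l0
    · subst hl
      rw [Pi.single_eq_same, hζ']
    · rw [Pi.single_eq_of_ne hl, hA.map_zero]
  exact (hT.img_aut _ _ π (prho (fun _ => 1) (Pi.single l0 ζ)) (tau (c l0.1 * ζ)) hq.2.1 hq.2.2.1
    hq.2.2.2.1 (isAut_prho hA _ hα) (isAut_tau (l := []) hA hcζ) (fun w _ => hπ ζ w) x).symm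

/-- The operator `∑ ζ` on the invariant classes. -/
lemma inv_sum {T : Homology k K} (hT : T.IsBorelMoore) (hA : IsAdditive A) (hA0 : A ≠ 0) {l0 : LL d}
    {x : T.H (ppow A f0 f P d)}
    (h1 : ∀ (σ : (j : Fin M) → Equiv.Perm (Fin (d j))) (α : LL d → k), (∀ l, A.eval (α l) = 0) →
      ∑ l, c l.1 * α l = 0 → T.act _ (prho σ α) x = x)
    (σ : (j : Fin M) → Equiv.Perm (Fin (d j))) {α : LL d → k} (hα : ∀ l, A.eval (α l) = 0)
    (hα0 : ∑ l, c l.1 * α l = 0) :
    T.act _ (prho σ α) (∑ ζ ∈ zer A, T.act _ (prho (fun _ => 1) (Pi.single l0 ζ)) x) =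
      ∑ ζ ∈ zer A, T.act _ (prho (fun _ => 1) (Pi.single l0 ζ)) x := by
  rw [map_sum]
  refine Finset.sum_congr rfl fun ζ hζ => ?_
  have hζ' := (mem_zer hA0).mp hζ
  have hX : IsZeroSet (ppow A f0 f P d) := isZeroSet_ppow A f0 f P d
  set u : LL d → k := Pi.single l0 ζ with hu
  have hu0 : ∀ l, A.eval (u l) = 0 := by
    intro l
    by_cases hl : l = l0
    · subst hl
      rw [hu, Pi.single_eq_same, hζ']
    · rw [hu, Pi.single_eq_of_ne hl, hA.map_zero]
  let v : LL d → k := fun l => u (prm σ l) + α l - u l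
  have hv0 : ∀ l, A.eval (v l) = 0 := fun l => by
    show A.eval (u (prm σ l) + α l - u l) = 0
    rw [hA.map_sub, hA, hu0, hα, hu0]; ring
  have hv1 : ∑ l, c l.1 * v l = 0 := by
    have h2 : ∑ l : LL d, c l.1 * u (prm σ l) = ∑ l : LL d, c l.1 * u l := sum_prm σ fun l => c l.1 * u l
    show ∑ l : LL d, c l.1 * (u (prm σ l) + α l - u l) = 0
    simp only [mul_sub, mul_add, Finset.sum_sub_distrib, Finset.sum_add_distrib]
    rw [h2, hα0]; ring
  have h3 := hT.aut_comp _ (prho σ α) (prho (fun _ => 1) u) hX (isAut_prho hA σ hα)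
    (isAut_prho hA (fun _ => 1) hu0) x
  have h4 := hT.aut_comp _ (prho (fun _ => 1) u) (prho σ v) hX
    (isAut_prho hA (fun _ => 1) hu0) (isAut_prho hA σ hv0) x
  have h5 : (fun y : PI d N → k => prho σ α (prho (fun _ => 1) u y)) =
      fun y => prho (fun _ => 1) u (prho σ v y) := by
    funext y
    rw [prho_prho, prho_prho]
    have h6 : (fun j => (1 : Equiv.Perm (Fin (d j))) * σ j) = fun j => σ j * 1 := by
      funext j; rw [one_mul, mul_one]
    have h7 : (fun l => u (prm σ l) + α l) = fun l => v (prm (fun _ => 1) l) + u l := by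
      funext l
      show u (prm σ l) + α l = (u (prm σ l) + α l - u l) + u l
      ring
    rw [h6, h7]
  rw [h5] at h3
  have h8 : T.act _ (prho σ α) (T.act _ (prho (fun _ => 1) u) x) =
      T.act _ (prho (fun _ => 1) u) (T.act _ (prho σ v) x) := h3.symm.trans h4
  rw [h8, h1 σ v hv0 hv1]

lemma sum_sum_act {T : Homology k K} (hT : T.IsBorelMoore) (hA : IsAdditive A) (hA0 : A ≠ 0) {l0 : LL d}
    (x : T.H (ppow A f0 f P d)) :
    ∑ ξ ∈ zer A, T.act _ (prho (fun _ => 1) (Pi.single l0 ξ))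
      (∑ ζ ∈ zer A, T.act _ (prho (fun _ => 1) (Pi.single l0 ζ)) x) =
      ((zer A).card : K) • ∑ ζ ∈ zer A, T.act _ (prho (fun _ => 1) (Pi.single l0 ζ)) x := by
  have hX : IsZeroSet (ppow A f0 f P d) := isZeroSet_ppow A f0 f P d
  have hu0 : ∀ ζ ∈ zer A, ∀ l, A.eval ((Pi.single l0 ζ : LL d → k) l) = 0 := by
    intro ζ hζ l
    by_cases hl : l = l0
    · subst hl
      rw [Pi.single_eq_same, (mem_zer hA0).mp hζ]
    · rw [Pi.single_eq_of_ne hl, hA.map_zero]
  have h1 : ∀ ξ ∈ zer A, T.act _ (prho (fun _ => 1) (Pi.single l0 ξ))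
      (∑ ζ ∈ zer A, T.act _ (prho (fun _ => 1) (Pi.single l0 ζ)) x) =
      ∑ ζ ∈ zer A, T.act _ (prho (fun _ => 1) (Pi.single l0 ζ)) x := by
    intro ξ hξ
    rw [map_sum, ← sum_shift hA hA0 (fun ζ => T.act _ (prho (fun _ => 1) (Pi.single l0 ζ)) x)
      ((mem_zer hA0).mp hξ)]
    refine Finset.sum_congr rfl fun ζ hζ => ?_
    have h3 := hT.aut_comp _ (prho (fun _ => 1) (Pi.single l0 ξ))
      (prho (fun _ => 1) (Pi.single l0 ζ)) hX (isAut_prho (f0 := f0) (f := f) (P := P) hA (fun _ => 1) (hu0 ξ hξ))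
      (isAut_prho hA (fun _ => 1) (hu0 ζ hζ)) x
    have h5 : (fun y : PI d N → k => prho (fun _ => 1) (Pi.single l0 ξ) (prho (fun _ => 1) (Pi.single l0 ζ) y)) =
        prho (fun _ => 1) (Pi.single l0 (ξ + ζ)) := by
      funext y
      rw [prho_prho]
      have h6 : (fun j => (1 : Equiv.Perm (Fin (d j))) * 1) = fun _ => 1 := by
        funext j; rw [one_mul]
      have h7 : (fun l => (Pi.single l0 ζ : LL d → k) (prm (fun _ => 1) l) + (Pi.single l0 ξ : LL d → k) l) =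
          Pi.single l0 (ξ + ζ) := by
        funext l
        show (Pi.single l0 ζ : LL d → k) l + (Pi.single l0 ξ : LL d → k) l = _
        by_cases hl : l = l0
        · subst hl
          rw [Pi.single_eq_same, Pi.single_eq_same, Pi.single_eq_same, add_comm]
        · rw [Pi.single_eq_of_ne hl, Pi.single_eq_of_ne hl, Pi.single_eq_of_ne hl, add_zero]
      rw [h6, h7]
    rw [h5] at h3
    exact h3.symm
  rw [Finset.sum_congr rfl h1, Finset.sum_const, Nat.cast_smul_eq_nsmul]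

end Pool.Agent.U436.CS
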