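import Pool.Agent.U436.CS.Times

/-!
# The homology of the products with a fixed variety
-/

set_option autoImplicit false

namespace Pool.Agent.U436.CS

open Pool.Agent.U436.AS Pool.Agent.U436.CT

variable {k K : Type} [Field k] [Field K] {τ : Type}

/-- The homology of the products `X × S`. -/
def Homology.times (T : Homology k K) (S : Set (τ → k)) : Homology k K where
  H := fun X => T.H (tms X S)
  grp := fun X => T.grp (tms X S)
  mod := fun X => T.mod (tms X S)
  O := fun X h => T.O (tms X S) (htm h)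
  grpO := fun X h => T.grpO (tms X S) (htm h)
  modO := fun X h => T.modO (tms X S) (htm h)
  B := fun X h => T.B (tms X S) (htm h)
  grpB := fun X h => T.grpB (tms X S) (htm h)
  modB := fun X h => T.modB (tms X S) (htm h)
  push := fun X Y π => T.push (tms X S) (tms Y S) (ftm π)
  res := fun X h => T.res (tms X S) (htm h)
  bd := fun Z X h => T.bd (tms Z S) (tms X S) (htm h)
  actO := fun X h g => T.actO (tms X S) (htm h) (ftm g)
  actB := fun X h g => T.actB (tms X S) (htm h) (ftm g)

variable [Finite τ] {S : Set (τ → k)}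

omit [Field k] [Finite τ] in
lemma ftm_id {ι : Type} : (ftm fun y : ι → k => y) = fun w : ι ⊕ τ → k => w := by
  funext w
  exact ext_sum rfl rfl

omit [Finite τ] in
lemma times_incl (T : Homology k K) {ι : Type} (Z X : Set (ι → k)) :
    (T.times S).incl Z X = T.incl (tms Z S) (tms X S) := by
  show T.push (tms Z S) (tms X S) (ftm fun y => y) = T.push (tms Z S) (tms X S) fun w => w
  rw [ftm_id]

theorem Homology.IsBorelMoore.times {T : Homology k K} (hT : T.IsBorelMoore) (hS : IsZeroSet S) :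
    (T.times S).IsBorelMoore where
  functor :=
    { img_id := fun X hX x => by
        show T.push (tms X S) (tms X S) (ftm fun y => y) x = x
        rw [ftm_id]
        exact hT.functor.img_id _ (isZeroSet_tms hX hS) x
      img_img := fun X Y W f g hX hY hW hf hg x =>
        hT.functor.img_img _ _ _ (ftm f) (ftm g) (isZeroSet_tms hX hS) (isZeroSet_tms hY hS)
          (isZeroSet_tms hW hS) (isFiniteMap_ftm S hf) (isFiniteMap_ftm S hg) x
      img_eq := fun X Y f g hX hY hf hg h x =>
        hT.functor.img_eq _ _ (ftm f) (ftm g) (isZeroSet_tms hX hS) (isZeroSet_tms hY hS)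
          (isFiniteMap_ftm S hf) (isFiniteMap_ftm S hg) (fun _ hw => ext_sum (h _ hw.1) rfl) x }
  isLocal :=
    { rst_img := fun X h g hX hh hg x =>
        hT.isLocal.rst_img _ (htm h) (ftm g) (isZeroSet_tms hX hS) (isPol_htm hh) (isAutOf_ftm S hg) x
      exact := fun Z X h hX hh hZ x hx => by
        obtain ⟨z, hz⟩ := hT.isLocal.exact _ _ (htm h) (isZeroSet_tms hX hS) (isPol_htm hh) (isPart_tms S hZ) x hx
        refine ⟨z, ?_⟩
        show (T.times S).incl Z X z = x
        rw [times_incl]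
        exact hz
      line := fun X h g hX hh hg x =>
        hT.isLocal.line _ (htm h) (ftm g) (isZeroSet_tms hX hS) (isPol_htm hh)
          ⟨isAutOf_ftm S hg.1, isLineAut_ftm hS hg.2⟩ x }
  long :=
    { bnd_aut := fun Z X h g hX hh hZ hg u =>
        hT.long.bnd_aut _ _ (htm h) (ftm g) (isZeroSet_tms hX hS) (isPol_htm hh) (isPart_tms S hZ)
          (isAutOf_ftm S hg) u
      exact := fun Z X h hX hh hZ z hz => by
        change (T.times S).incl Z X z = 0 at hz
        rw [times_incl] at hz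
        exact hT.long.exact _ _ (htm h) (isZeroSet_tms hX hS) (isPol_htm hh) (isPart_tms S hZ) z hz
      line := fun X h g hX hh hg u => hT.long.line _ (htm h) (ftm g) (isZeroSet_tms hX hS) (isPol_htm hh)
          ⟨isAutOf_ftm S hg.1, isLineAut_ftm hS hg.2⟩ u }
  add :=
    { onto := fun Z L X h x => by
        obtain ⟨y, hy⟩ := hT.add.onto Z (fun b => tms (L b) S) _ (isUnion_tms hS h) x
        refine ⟨y, ?_⟩
        show ∑ b ∈ Z, (T.times S).incl (L b) X (y b) = x
        simp only [times_incl]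
        exact hy
      inj := fun Z L X h y hy => by
        change ∑ b ∈ Z, (T.times S).incl (L b) X (y b) = 0 at hy
        simp only [times_incl] at hy
        exact hT.add.inj Z (fun b => tms (L b) S) _ (isUnion_tms hS h) y hy }
  quotients :=
    { inj := fun X Y π Γ ρ h x hx hy =>
        hT.quotients.inj _ _ (ftm π) Γ (fun γ => ftm (ρ γ)) (isQuotient_ftm hS h) x hx hy
      onto := fun X Y π Γ ρ h y =>
        hT.quotients.onto _ _ (ftm π) Γ (fun γ => ftm (ρ γ)) (isQuotient_ftm hS h) y }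

/-- The map `cl` on the products `X × S`. -/
def CycleMap.times (P : CycleMap k K) (S : Set (τ → k)) : CycleMap k K where
  G := P.G.times S
  T := P.T.times S
  cl := fun X => P.cl (tms X S)

theorem CycleMap.IsBorelMoore.times {P : CycleMap k K} (hP : P.IsBorelMoore) (hS : IsZeroSet S) :
    (P.times S).IsBorelMoore where
  source := hP.source.times hS
  target := hP.target.times hS
  cyc_img := fun X Y π hX hY hπ x => hP.cyc_img _ _ (ftm π) (isZeroSet_tms hX hS) (isZeroSet_tms hY hS)
        (isFiniteMap_ftm S hπ) x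

/-! ### Cells -/

/-- An affine space of dimension `n`. -/
def IsCell {ι : Type} (n : ℕ) (X : Set (ι → k)) : Prop := ∃ φ, IsIso X (Set.univ : Set (Fin n → k)) φ

/-- `cl` is injective on the disjoint unions of affine spaces of dimension `n`. -/
def CycleMap.CellsInj (P : CycleMap k K) (n : ℕ) : Prop := ∀ {ι β : Type} [Finite ι] (Z : Finset β)
  (L : β → Set (ι → k)) (X : Set (ι → k)), IsUnion Z L X → (∀ b ∈ Z, IsCell n (L b)) →
    ∀ x : P.G.H X, P.cl X x = 0 → x = 0

/-- `cl` is surjective on the disjoint unions of affine spaces of dimension `n`. -/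
def CycleMap.CellsOnto (P : CycleMap k K) (n : ℕ) : Prop := ∀ {ι β : Type} [Finite ι] (Z : Finset β)
  (L : β → Set (ι → k)) (X : Set (ι → k)), IsUnion Z L X → (∀ b ∈ Z, IsCell n (L b)) →
    ∀ y : P.T.H X, ∃ x, P.cl X x = y

lemma isQuotient_iso {ι κ : Type} {X : Set (ι → k)} {Y : Set (κ → k)} {φ : (ι → k) → κ → k}
    (hX : IsZeroSet X) (hY : IsZeroSet Y) (h : IsIso X Y φ) :
    IsQuotient X Y φ Unit fun _ => fun y => y := by
  obtain ⟨h1, h2, φ', h3, h4, h5, h6⟩ := h
  refine ⟨inferInstance, hX, hY, ⟨h1, h2, fun i => ?_⟩, fun y hy => ⟨φ' y, h4 y hy, h6 y hy⟩, fun _ => ?_,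
    fun x hx x' hx' => ⟨fun e => ⟨(), ?_⟩, ?_⟩⟩
  · exact Itg.of_pol (F := fun x : ι → k => x i) (h3 i) fun x hx => by rw [h5 x hx]
  · exact ⟨fun i => IsPol.coord i, fun _ hx => hx, fun y => y, fun i => IsPol.coord i, fun _ hx => hx,
      fun _ _ => rfl, fun _ _ => rfl⟩
  · rw [← h5 x hx, ← h5 x' hx', e]
  · rintro ⟨_, rfl⟩
    rfl

lemma isZeroSet_univ {ι : Type} : IsZeroSet (Set.univ : Set (ι → k)) :=
  ⟨∅, fun _ hF => hF.elim, by ext x; simp⟩

omit [Finite τ] in
lemma isZeroSet_union {ι β : Type} {Z : Finset β} {L : β → Set (ι → k)} {X : Set (ι → k)}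
    (hU : IsUnion Z L X) : IsZeroSet X := by
  obtain ⟨h1, h2, h3⟩ := hU
  have h4 : ∀ (Z : Finset β), (∀ b ∈ Z, IsZeroSet (L b)) → IsZeroSet (⋃ b ∈ Z, L b) := by
    classical
    intro Z
    induction Z using Finset.induction_on with
    | empty =>
      intro _
      refine ⟨{fun _ => 1}, fun F hF => by rw [Set.mem_singleton_iff.mp hF]; exact IsPol.const 1, ?_⟩
      ext w
      simp
    | insert a Z ha ih =>
      intro h5
      rw [Finset.set_biUnion_insert]
      obtain ⟨F, hF, hF'⟩ := h5 a (Finset.mem_insert_self a Z)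
      obtain ⟨G, hG, hG'⟩ := ih fun b hb => h5 b (Finset.mem_insert_of_mem hb)
      rw [hF', hG']
      refine ⟨{f | ∃ f1 ∈ F, ∃ f2 ∈ G, f = fun w => f1 w * f2 w}, ?_, ?_⟩
      · rintro f ⟨f1, hf1, f2, hf2, rfl⟩
        exact (hF f1 hf1).mul (hG f2 hf2)
      · ext w
        constructor
        · rintro (h6 | h6) f ⟨f1, hf1, f2, hf2, rfl⟩
          · show f1 w * f2 w = 0
            rw [h6 f1 hf1, zero_mul]
          · show f1 w * f2 w = 0
            rw [h6 f2 hf2, mul_zero]
        · intro h6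
          by_contra h7
          rw [Set.mem_union, not_or] at h7
          obtain ⟨h8, h9⟩ := h7
          have h10 : ∃ f1 ∈ F, f1 w ≠ 0 := by
            by_contra h
            push Not at h
            exact h8 h
          have h11 : ∃ f2 ∈ G, f2 w ≠ 0 := by
            by_contra h
            push Not at h
            exact h9 h
          obtain ⟨f1, hf1, h12⟩ := h10
          obtain ⟨f2, hf2, h13⟩ := h11
          exact mul_ne_zero h12 h13 (h6 _ ⟨f1, hf1, f2, hf2, rfl⟩)
  have h5 : X = ⋃ b ∈ Z, L b := by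
    ext w
    rw [h3, Set.mem_iUnion₂]
    constructor
    · rintro ⟨b, hb, h6⟩
      exact ⟨b, hb, h6⟩
    · rintro ⟨b, hb, h6⟩
      exact ⟨b, hb, h6⟩
  rw [h5]
  exact h4 Z h1

theorem cellsInj {P : CycleMap k K} (hP : P.IsBorelMoore) {n : ℕ}
    (h : ∀ x : P.G.H (Set.univ : Set (Fin n → k)), P.cl _ x = 0 → x = 0) : P.CellsInj n := by
  intro ι β _ Z L X hU hL x hx
  obtain ⟨y, hy⟩ := hP.source.add.onto Z L _ hU x
  have hzX : IsZeroSet X := isZeroSet_union hU
  have hsub : ∀ b ∈ Z, L b ⊆ X := fun b hb w hw => (hU.2.2 w).mpr ⟨b, hb, hw⟩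
  have h1 : ∑ b ∈ Z, P.T.incl (L b) X (P.cl (L b) (y b)) = 0 := by
    rw [← hx, ← hy, map_sum]
    exact Finset.sum_congr rfl fun b hb => (hP.inc _ _ (hU.1 b hb) hzX (hsub b hb) (y b)).symm
  have h2 := hP.target.add.inj Z L _ hU (fun b => P.cl (L b) (y b)) h1
  have h3 : ∀ b ∈ Z, y b = 0 := by
    intro b hb
    obtain ⟨φ, hφ⟩ := hL b hb
    have hq := isQuotient_iso (hU.1 b hb) isZeroSet_univ hφ
    refine hP.source.quotients.inj _ _ _ Unit _ hq (y b)
      (fun _ => hP.source.functor.img_id _ (hU.1 b hb) _) (h _ ?_)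
    have h4 := hP.img _ _ _ (hU.1 b hb) isZeroSet_univ hq.2.2.2.1 (y b)
    rw [h4, h2 b hb, map_zero]
  rw [← hy]
  exact Finset.sum_eq_zero fun b hb => by
    show P.G.incl _ _ (y b) = 0
    rw [h3 b hb, map_zero]

theorem cellsOnto {P : CycleMap k K} (hP : P.IsBorelMoore) {n : ℕ}
    (h : ∀ y : P.T.H (Set.univ : Set (Fin n → k)), ∃ x, P.cl _ x = y) : P.CellsOnto n := by
  classical
  intro ι β _ Z L X hU hL x
  obtain ⟨y, hy⟩ := hP.target.add.onto Z L _ hU x
  have hzX : IsZeroSet X := isZeroSet_union hU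
  have hsub : ∀ b ∈ Z, L b ⊆ X := fun b hb w hw => (hU.2.2 w).mpr ⟨b, hb, hw⟩
  have h3 : ∀ b, ∃ z : P.G.H (L b), b ∈ Z → P.cl (L b) z = y b := by
    intro b
    by_cases hb : b ∈ Z
    · obtain ⟨φ, hφ⟩ := hL b hb
      have hq := isQuotient_iso (hU.1 b hb) isZeroSet_univ hφ
      obtain ⟨z, hz⟩ := h (P.T.push _ _ φ (y b))
      obtain ⟨z', -, hz'⟩ := hP.source.quotients.onto _ _ _ Unit _ hq z
      refine ⟨z', fun _ => ?_⟩
      have h4 := hP.img _ _ _ (hU.1 b hb) isZeroSet_univ hq.2.2.2.1 z'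
      change P.G.push _ _ _ z' = z at hz'
      have h5 : P.T.push _ _ φ (P.cl (L b) z' - y b) = (0 : P.T.H (Set.univ : Set (Fin n → k))) := by
        rw [map_sub, ← h4, hz', hz, sub_self]
      exact sub_eq_zero.mp (hP.target.quotients.inj _ _ _ Unit _ hq _
        (fun _ => hP.target.functor.img_id _ (hU.1 b hb) _) h5)
    · exact ⟨0, fun h => (hb h).elim⟩
  choose z hz using h3
  refine ⟨∑ b ∈ Z, P.G.incl (L b) X (z b), ?_⟩
  rw [← hy, map_sum]
  refine Finset.sum_congr rfl fun b hb => ?_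
  have h6 := hP.inc _ _ (hU.1 b hb) hzX (hsub b hb) (z b)
  rw [h6, hz b hb]

end Pool.Agent.U436.CS
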