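import Pool.Agent.U436.CS.Final

/-!
# The products with a variety `S`
-/

set_option autoImplicit false

namespace Pool.Agent.U436.CS

open Finset Pool.Agent.U436 Pool.Agent.U436.AS Pool.Agent.U436.CP
open Pool.Agent.U436.CT hiding VI ia ib iz iv vset vl tau tau_iz tau_ia tau_ib tau_iv tau_tau tau_zero mem_vl isZeroSet_vset
  isZeroSet_vl isPolMap_tau tau_mem isAut_tau isLineAut

variable {k : Type} [Field k] {M : ℕ} {N d : Fin M → ℕ} {K : Type} [Field K] {A : Polynomial k}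
  {f0 : Fin M → Polynomial k} {f : (j : Fin M) → Fin (N j) → Polynomial k} {P : (j : Fin M) → Fin (N j) → k}
  {c : Fin M → k} {τ : Type} {S : Set (τ → k)}

/-- The determinant classes on the product of `ppow = ∏ C j ^ d j` with `S`: the classes invariant under the
permutations and the translations `y l ↦ y l + α l`, `A (α l) = 0`, `∑ c l * α l = 0`, and killed by the sum of the
translations of one coordinate `y l0`. -/
def IsDet (T : Homology k K) (A : Polynomial k) (f0 : Fin M → Polynomial k)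
    (f : (j : Fin M) → Fin (N j) → Polynomial k) (P : (j : Fin M) → Fin (N j) → k) (c : Fin M → k)
    (S : Set (τ → k)) (l0 : LL d) (x : T.H (tms (ppow A f0 f P d) S)) : Prop :=
  (∀ (σ : (j : Fin M) → Equiv.Perm (Fin (d j))) (α : LL d → k), (∀ l, A.eval (α l) = 0) →
    ∑ l, c l.1 * α l = 0 → T.img _ _ (ftm (prho σ α)) x = x) ∧
  ∑ ζ ∈ zer A, T.img _ (tms (ppow A f0 f P d) S) (ftm (prho (fun _ => 1) (Pi.single l0 ζ))) x = 0

/-- The product of the affine space of dimension `n` and `S`. -/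
def affS (n : ℕ) (S : Set (τ → k)) : Set (Fin n ⊕ τ → k) := tms Set.univ S

variable [IsAlgClosed k] [CharZero K]

theorem isDet_inj_iff {C : CycleMap k K} (hC : C.IsBorelMoore) (hA : IsAdditive A)
    (hA0 : A ≠ 0) (hP : ∀ j, Function.Injective (P j)) (hm0 : ∀ j, ((f0 j).natDegree : k) ≠ 0)
    (hm : ∀ j i, ((f j i).natDegree : k) ≠ 0)
    (hd : ∀ j, d j + 1 = (f0 j).natDegree + ∑ i, ((f j i).natDegree + 1)) {n : ℕ} (he : ∑ j, d j = 2 * n)
    (hc : ∀ j, c j ≠ 0) (hAc : ∀ j y, A.eval (c j * y) = c j * A.eval y) {ζ : k}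
    (hζ : A.eval ζ = 0) (hζ0 : ζ ≠ 0) [Finite τ] (hS : IsZeroSet S) (l0 : LL d) :
    (∀ x, IsDet C.G A f0 f P c S l0 x → C.cyc _ x = 0 → x = 0) ↔ ∀ x, C.cyc (affS n S) x = 0 → x = 0 :=
  det_inj_iff (C := C.times S) (hC.times hS) hA hA0 hP hm0 hm hd he hc hAc l0 hζ hζ0

theorem isDet_onto_iff {C : CycleMap k K} (hC : C.IsBorelMoore) (hA : IsAdditive A)
    (hA0 : A ≠ 0) (hP : ∀ j, Function.Injective (P j)) (hm0 : ∀ j, ((f0 j).natDegree : k) ≠ 0)
    (hm : ∀ j i, ((f j i).natDegree : k) ≠ 0)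
    (hd : ∀ j, d j + 1 = (f0 j).natDegree + ∑ i, ((f j i).natDegree + 1)) {n : ℕ} (he : ∑ j, d j = 2 * n)
    (hc : ∀ j, c j ≠ 0) (hAc : ∀ j y, A.eval (c j * y) = c j * A.eval y) {ζ : k}
    (hζ : A.eval ζ = 0) (hζ0 : ζ ≠ 0) [Finite τ] (hS : IsZeroSet S) (l0 : LL d) :
    (∀ y, IsDet C.T A f0 f P c S l0 y → ∃ x, IsDet C.G A f0 f P c S l0 x ∧ C.cyc _ x = y) ↔
      ∀ y, ∃ x, C.cyc (affS n S) x = y :=
  det_onto_iff (C := C.times S) (hC.times hS) hA hA0 hP hm0 hm hd he hc hAc l0 hζ hζ0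

end Pool.Agent.U436.CS
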