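import Pool.Agent.U436.CS.Product

/-!
# The classes on `A (z) = ∑ a j * b j` with norm zero
-/

set_option autoImplicit false

namespace Pool.Agent.U436.CS

open Finset Pool.Agent.U436.AS Pool.Agent.U436.CP
open Pool.Agent.U436.CT hiding VI ia ib iz iv vset vl tau tau_iz tau_ia tau_ib tau_iv tau_tau tau_zero mem_vl isZeroSet_vset
  isZeroSet_vl isPolMap_tau tau_mem isAut_tau isLineAut

variable {k K : Type} [Field k] [Field K] {J : Type} [Fintype J] [DecidableEq J] {B : Type} [Finite B] [DecidableEq B]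

/-- The norm. -/
noncomputable def nm (T : Homology k K) (A : Polynomial k) (X : Set (VI J B → k)) : T.H X →ₗ[K] T.H X :=
  ∑ ζ ∈ zer A, T.act X (tau ζ)

omit [Fintype J] [Finite B] in
lemma nm_apply (T : Homology k K) (A : Polynomial k) (X : Set (VI J B → k)) (x : T.H X) :
    nm T A X x = ∑ ζ ∈ zer A, T.act X (tau ζ) x := by
  unfold nm
  rw [LinearMap.sum_apply]

variable {T : Homology k K} {P : CycleMap k K} {A : Polynomial k} {pl : B → J}

lemma isPart_vl (l : List J) (j : J) : IsPart (vl A pl (j :: l)) (vl A pl l) fun w => w (ib j) :=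
  fun _ => Iff.rfl

lemma isAutOf_tau (hA : IsAdditive A) (l : List J) (j : J) {ζ : k} (hζ : A.eval ζ = 0) :
    IsAutOf (vl A pl l) (fun w => w (ib j)) (tau ζ) := ⟨isAut_tau hA hζ, fun w _ => tau_ib ζ w j⟩

lemma isLineAutOf_tau (hA : IsAdditive A) (l : List J) (j : J) {ζ : k} (hζ : A.eval ζ = 0) :
    IsLineAutOf (vl A pl l) (fun w => w (ib j)) (tau ζ) := ⟨isAutOf_tau hA l j hζ, isLineAut A pl l j ζ⟩

lemma act_nm (hT : T.IsBorelMoore) (hA : IsAdditive A) (hA0 : A ≠ 0) (l : List J) {ζ : k}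
    (hζ : A.eval ζ = 0) (x : T.H (vl A pl l)) :
    T.act (vl A pl l) (tau ζ) (nm T A (vl A pl l) x) = nm T A (vl A pl l) x := by
  rw [nm_apply, map_sum, ← sum_shift hA hA0 (fun ξ => T.act (vl A pl l) (tau ξ) x) hζ]
  refine Finset.sum_congr rfl fun ξ hξ => ?_
  rw [mem_zer hA0] at hξ
  have h1 := hT.aut_comp (vl A pl l) (tau ζ) (tau ξ) (isZeroSet_vl A pl l) (isAut_tau hA hζ)
    (isAut_tau hA hξ) x
  have h2 : (fun y : VI J B → k => tau ζ (tau ξ y)) = tau (ζ + ξ) := by
    funext y; exact tau_tau ζ ξ y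
  rw [h2] at h1
  exact h1.symm

lemma nm_nm (hT : T.IsBorelMoore) (hA : IsAdditive A) (hA0 : A ≠ 0) (l : List J)
    (x : T.H (vl A pl l)) :
    nm T A (vl A pl l) (nm T A (vl A pl l) x) = ((zer A).card : K) • nm T A (vl A pl l) x := by
  have h1 : ∀ ζ ∈ zer A, T.act (vl A pl l) (tau ζ) (nm T A (vl A pl l) x) = nm T A (vl A pl l) x :=
    fun ζ hζ => act_nm hT hA hA0 l ((mem_zer hA0).mp hζ) x
  rw [nm_apply T A (vl A pl l) (nm T A (vl A pl l) x), Finset.sum_congr rfl h1, Finset.sum_const,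
    Nat.cast_smul_eq_nsmul]

/-- Classes of norm zero come from classes of norm zero on the part `b j = 0`. -/
lemma exists_norm_zero [CharZero K] (hT : T.IsBorelMoore) (hA : IsAdditive A) (hA0 : A ≠ 0) (l : List J)
    (j : J) (x : T.H (vl A pl l)) (hx : nm T A (vl A pl l) x = 0) :
    ∃ y : T.H (vl A pl (j :: l)), nm T A (vl A pl (j :: l)) y = 0 ∧
      T.incl (vl A pl (j :: l)) (vl A pl l) y = x := by
  have hn := card_zer (K := K) hA hA0
  have hX := isZeroSet_vl A pl l
  have hZ := isZeroSet_vl A pl (j :: l)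
  have hsub : vl A pl (j :: l) ⊆ vl A pl l := fun w hw => hw.1
  have h1 : T.res (vl A pl l) (fun w => w (ib j)) x = 0 := by
    have h2 : ∀ ζ ∈ zer A, T.res (vl A pl l) (fun w => w (ib j)) (T.act (vl A pl l) (tau ζ) x) =
        T.res (vl A pl l) (fun w => w (ib j)) x := by
      intro ζ hζ
      have hζ' := (mem_zer hA0).mp hζ
      have h3 := hT.aut_rst (vl A pl l) (fun w => w (ib j)) (tau ζ) hX (IsPol.coord _)
        (isAutOf_tau hA l j hζ') x
      exact h3.trans (hT.isLocal.line _ _ _ hX (IsPol.coord _) (isLineAutOf_tau hA l j hζ') _)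
    have h3 : T.res (vl A pl l) (fun w => w (ib j)) (nm T A (vl A pl l) x) =
        ((zer A).card : K) • T.res (vl A pl l) (fun w => w (ib j)) x := by
      rw [nm_apply, map_sum, Finset.sum_congr rfl h2, Finset.sum_const, Nat.cast_smul_eq_nsmul]
    rw [hx, map_zero] at h3
    exact (smul_eq_zero.mp h3.symm).resolve_left hn
  obtain ⟨y, hy⟩ := hT.isLocal.exact _ _ (fun w => w (ib j)) hX (IsPol.coord _) (isPart_vl l j) x h1
  change T.H (vl A pl (j :: l)) at y
  change T.incl (vl A pl (j :: l)) (vl A pl l) y = x at hy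
  have h4 : ∀ y' : T.H (vl A pl (j :: l)), T.incl (vl A pl (j :: l)) (vl A pl l)
      (nm T A (vl A pl (j :: l)) y') = nm T A (vl A pl l) (T.incl (vl A pl (j :: l)) (vl A pl l) y') := by
    intro y'
    rw [nm_apply, nm_apply, map_sum]
    refine Finset.sum_congr rfl fun ζ hζ => ?_
    have hζ' := (mem_zer hA0).mp hζ
    exact (hT.aut_inc _ _ _ hZ hX hsub (isAut_tau hA hζ') (isAut_tau hA hζ') y').symm
  refine ⟨y - ((zer A).card : K)⁻¹ • nm T A (vl A pl (j :: l)) y, ?_, ?_⟩
  · rw [map_sub, map_smul, nm_nm hT hA hA0, smul_smul, inv_mul_cancel₀ hn, one_smul, sub_self]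
  · rw [map_sub, map_smul, h4, hy, hx, smul_zero, sub_zero]

lemma cl_nm (hP : P.IsBorelMoore) (hA : IsAdditive A) (hA0 : A ≠ 0) (l : List J)
    (x : P.G.H (vl A pl l)) : P.cl (vl A pl l) (nm P.G A (vl A pl l) x) =
      nm P.T A (vl A pl l) (P.cl (vl A pl l) x) := by
  rw [nm_apply, nm_apply, map_sum]
  exact Finset.sum_congr rfl fun ζ hζ => hP.aut _ _ (isZeroSet_vl A pl l)
    (isAut_tau hA ((mem_zer hA0).mp hζ)) x

/-- `cl` is injective on the classes of norm zero. -/
def GInj (P : CycleMap k K) (A : Polynomial k) (X : Set (VI J B → k)) : Prop :=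
  ∀ x : P.G.H X, nm P.G A X x = 0 → P.cl X x = 0 → x = 0

/-- All classes of norm zero are in the image of `cl`. -/
def GOnto (P : CycleMap k K) (A : Polynomial k) (X : Set (VI J B → k)) : Prop :=
  ∀ y : P.T.H X, nm P.T A X y = 0 → ∃ x, P.cl X x = y

/-- The classes of norm zero on the part `b j = 0` are determined by their images. -/
lemma norm_zero_inj [CharZero K] (hT : T.IsBorelMoore) (hA : IsAdditive A) (hA0 : A ≠ 0) (l : List J) (j : J)
    (y : T.H (vl A pl (j :: l))) (hy0 : nm T A (vl A pl (j :: l)) y = 0)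
    (hy : T.incl (vl A pl (j :: l)) (vl A pl l) y = 0) : y = 0 := by
  have hn := card_zer (K := K) hA hA0
  have hX := isZeroSet_vl A pl l
  obtain ⟨u, hu⟩ := hT.long.exact _ _ (fun w => w (ib j)) hX (IsPol.coord _) (isPart_vl l j) _ hy
  change T.bd (vl A pl (j :: l)) (vl A pl l) (fun w => w (ib j)) u = y at hu
  have h4 : nm T A (vl A pl (j :: l)) (T.bd (vl A pl (j :: l)) (vl A pl l) (fun w => w (ib j)) u) =
      ((zer A).card : K) • T.bd (vl A pl (j :: l)) (vl A pl l) (fun w => w (ib j)) u := by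
    have h5 : ∀ ζ ∈ zer A, T.act (vl A pl (j :: l)) (tau ζ)
        (T.bd (vl A pl (j :: l)) (vl A pl l) (fun w => w (ib j)) u) =
        T.bd (vl A pl (j :: l)) (vl A pl l) (fun w => w (ib j)) u := by
      intro ζ hζ
      have hζ' := (mem_zer hA0).mp hζ
      have h6 := hT.long.bnd_aut _ _ (fun w => w (ib j)) (tau ζ) hX (IsPol.coord _) (isPart_vl l j)
        (isAutOf_tau hA l j hζ') u
      have h7 := hT.long.line _ (fun w => w (ib j)) (tau ζ) hX (IsPol.coord _) (isLineAutOf_tau hA l j hζ') u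
      change T.actB _ _ _ u = u at h7
      change T.bd _ _ _ (T.actB _ _ _ u) = T.act _ _ (T.bd _ _ _ u) at h6
      rw [h7] at h6
      exact h6.symm
    rw [nm_apply, Finset.sum_congr rfl h5, Finset.sum_const, Nat.cast_smul_eq_nsmul]
  rw [hu, hy0] at h4
  exact (smul_eq_zero.mp h4.symm).resolve_left hn

theorem gInj_step [CharZero K] (hP : P.IsBorelMoore) (hA : IsAdditive A) (hA0 : A ≠ 0) (l : List J) (j : J)
    (h : GInj P A (vl A pl (j :: l))) : GInj P A (vl A pl l) := by
  intro x hx hcx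
  have hX := isZeroSet_vl A pl l
  have hZ := isZeroSet_vl A pl (j :: l)
  have hsub : vl A pl (j :: l) ⊆ vl A pl l := fun w hw => hw.1
  obtain ⟨y, hy0, hy⟩ := exists_norm_zero hP.source hA hA0 l j x hx
  have h1 : P.T.incl (vl A pl (j :: l)) (vl A pl l) (P.cl (vl A pl (j :: l)) y) = 0 := by
    rw [← hP.inc _ _ hZ hX hsub y, hy, hcx]
  have h3 : nm P.T A (vl A pl (j :: l)) (P.cl (vl A pl (j :: l)) y) = 0 := by
    rw [← cl_nm hP hA hA0, hy0, map_zero]
  rw [← hy, h y hy0 (norm_zero_inj hP.target hA hA0 l j _ h3 h1), map_zero]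

theorem gOnto_step [CharZero K] (hP : P.IsBorelMoore) (hA : IsAdditive A) (hA0 : A ≠ 0) (l : List J) (j : J)
    (h : GOnto P A (vl A pl (j :: l))) : GOnto P A (vl A pl l) := by
  intro x hx
  have hX := isZeroSet_vl A pl l
  have hZ := isZeroSet_vl A pl (j :: l)
  have hsub : vl A pl (j :: l) ⊆ vl A pl l := fun w hw => hw.1
  obtain ⟨y, hy0, hy⟩ := exists_norm_zero hP.target hA hA0 l j x hx
  obtain ⟨z, hz⟩ := h y hy0
  refine ⟨P.G.incl _ _ z, ?_⟩
  rw [hP.inc _ _ hZ hX hsub z, hz, hy]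

/-- The points of the last stratum with `z = ζ`. -/
def lst (ζ : k) : Set (VI J B → k) :=
  ({w | ∀ j, w (ib j) = 0} ∩ {w | w iz - ζ = 0}) ∩ {w | ∀ i, w (iv i) - 1 = 0}

lemma isUnion_lst (hA0 : A ≠ 0) (l : List J) (hl : ∀ j, j ∈ l) :
    IsUnion (zer A) (lst : k → Set (VI J B → k)) (vl A pl l) := by
  refine ⟨fun ζ _ => ((isZeroSet_forall fun _ => IsPol.coord _).inter
      (isZeroSet_eq ((IsPol.coord _).sub (IsPol.const _)))).inter
        (isZeroSet_forall fun _ => (IsPol.coord _).sub (IsPol.const _)), fun ζ _ ξ _ hne => ?_, fun w => ?_⟩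
  · rw [Set.disjoint_left]
    rintro w ⟨⟨-, h2⟩, -⟩ ⟨⟨-, h3⟩, -⟩
    exact hne ((sub_eq_zero.mp h2).symm.trans (sub_eq_zero.mp h3))
  · rw [mem_vl]
    constructor
    · rintro ⟨⟨h2, h3⟩, h4⟩
      have h4' : ∀ j, w (ib j) = 0 := fun j => h4 j (hl j)
      refine ⟨w iz, ?_, ⟨h4', sub_self _⟩, fun i => ?_⟩
      · rw [mem_zer hA0, h2]
        exact Finset.sum_eq_zero fun j _ => by rw [h4' j, mul_zero]
      · have := h3 i
        rw [h4' (pl i), sub_zero, mul_one] at this
        exact sub_eq_zero.mpr this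
    · rintro ⟨ζ, hζ, ⟨h2, h3⟩, h4⟩
      rw [mem_zer hA0] at hζ
      refine ⟨⟨?_, fun i => ?_⟩, fun j _ => h2 j⟩
      · rw [sub_eq_zero.mp h3, hζ]
        exact (Finset.sum_eq_zero fun j _ => by rw [h2 j, mul_zero]).symm
      · rw [h2 (pl i), sub_eq_zero.mp (h4 i)]
        ring

lemma isCell_lst {n : ℕ} (hn : Fintype.card J = n) (ζ : k) : IsCell n (lst ζ : Set (VI J B → k)) := by
  let e : J ≃ Fin n := Fintype.equivFinOfCardEq hn
  refine ⟨fun w i => w (ia (e.symm i)), fun i => IsPol.coord _, fun w _ => Set.mem_univ _,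
    fun t => Sum.elim (Sum.elim (fun j => t (e j)) fun _ => 0) (Sum.elim (fun _ => ζ) fun _ => 1), ?_,
    fun t _ => ⟨⟨fun j => rfl, sub_self _⟩, fun i => sub_self _⟩, ?_, fun t _ => ?_⟩
  · rintro ((j | j) | (j | j))
    · exact IsPol.coord _
    · exact IsPol.const _
    · exact IsPol.const _
    · exact IsPol.const _
  · rintro w ⟨⟨h2, h3⟩, h4⟩
    funext q
    rcases q with (j | j) | (j | j)
    · show w (ia (e.symm (e j))) = w (ia j)
      rw [e.symm_apply_apply]
    · exact (h2 j).symm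
    · exact (sub_eq_zero.mp h3).symm
    · exact (sub_eq_zero.mp (h4 j)).symm
  · funext i
    show t (e (e.symm i)) = t i
    rw [e.apply_symm_apply]

/-- **`cl` is injective on the classes with norm zero on `A (z) = ∑ a j * b j`.** -/
theorem gInj_vset [CharZero K] (hP : P.IsBorelMoore) (hA : IsAdditive A) (hA0 : A ≠ 0) (pl : B → J)
    (hc : P.CellsInj (Fintype.card J)) : GInj P A (vset A pl) := by
  have h1 : ∀ l : List J, GInj P A (vl A pl l) → GInj P A (vl A pl []) := by
    intro l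
    induction l with
    | nil => exact id
    | cons j l ih => exact fun h => ih (gInj_step hP hA hA0 l j h)
  refine h1 Finset.univ.toList fun x _ hx => ?_
  exact hc (zer A) lst _ (isUnion_lst hA0 _ fun j => Finset.mem_toList.mpr (mem_univ j))
    (fun ζ _ => isCell_lst rfl ζ) x hx

/-- **The classes with norm zero on `A (z) = ∑ a j * b j` are in the image of `cl`.** -/
theorem gOnto_vset [CharZero K] (hP : P.IsBorelMoore) (hA : IsAdditive A) (hA0 : A ≠ 0) (pl : B → J)
    (hc : P.CellsOnto (Fintype.card J)) : GOnto P A (vset A pl) := by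
  have h1 : ∀ l : List J, GOnto P A (vl A pl l) → GOnto P A (vl A pl []) := by
    intro l
    induction l with
    | nil => exact id
    | cons j l ih => exact fun h => ih (gOnto_step hP hA hA0 l j h)
  refine h1 Finset.univ.toList fun x _ => ?_
  exact hc (zer A) lst _ (isUnion_lst hA0 _ fun j => Finset.mem_toList.mpr (mem_univ j))
    (fun ζ _ => isCell_lst rfl ζ) x

end Pool.Agent.U436.CS
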