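import Pool.Agent.U436.CP.PFinal

/-!
# Borel–Moore homology theories and maps between them

The varieties are the zero sets `X` of polynomials in affine spaces `k ^ ι`.
-/

set_option autoImplicit false

namespace Pool.Agent.U436.CS

open Pool.Agent.U436.AS Pool.Agent.U436.CT

variable {k : Type} [Field k]

/-- `Z` is the closed part `h = 0` of `X`. -/
def IsPart {ι : Type} (Z X : Set (ι → k)) (h : (ι → k) → k) : Prop := ∀ y, y ∈ Z ↔ y ∈ X ∧ h y = 0

/-- `φ` is an isomorphism of `X` with `Y`. -/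
def IsIso {ι κ : Type} (X : Set (ι → k)) (Y : Set (κ → k)) (φ : (ι → k) → κ → k) : Prop :=
  IsPolMap φ ∧ (∀ x ∈ X, φ x ∈ Y) ∧ ∃ φ' : (κ → k) → ι → k, IsPolMap φ' ∧ (∀ y ∈ Y, φ' y ∈ X) ∧
    (∀ x ∈ X, φ' (φ x) = x) ∧ ∀ y ∈ Y, φ (φ' y) = y

/-- `g` is an automorphism of `X` which preserves the function `h`. -/
def IsAutOf {ι : Type} (X : Set (ι → k)) (h : (ι → k) → k) (g : (ι → k) → ι → k) : Prop :=
  IsAut X g ∧ ∀ x ∈ X, h (g x) = h x

/-- The automorphism `g` of `X` preserves `h`, and the open part `h ≠ 0` is a trivial line bundle over a variety, over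
which `g` is an automorphism. -/
def IsLineAutOf {ι : Type} (X : Set (ι → k)) (h : (ι → k) → k) (g : (ι → k) → ι → k) : Prop :=
  IsAutOf X h g ∧ IsLineAut (opn X h) (ext g)

/-- `X` is the disjoint union of the closed sets `L b`. -/
def IsUnion {ι β : Type} (Z : Finset β) (L : β → Set (ι → k)) (X : Set (ι → k)) : Prop :=
  (∀ b ∈ Z, IsZeroSet (L b)) ∧ (∀ b ∈ Z, ∀ c ∈ Z, b ≠ c → Disjoint (L b) (L c)) ∧
    ∀ x, x ∈ X ↔ ∃ b ∈ Z, x ∈ L b

/-- The data of a homology theory in one degree: `H X`; the homology `O X h` of the open part `h ≠ 0` of `X`, and `B X h`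
in the next degree; the direct images `push` under finite maps; the restrictions `res`; the boundary maps `bd` to the
closed part `Z : h = 0`; the actions of the automorphisms of `X` which preserve `h` on `O X h` and `B X h`. -/
structure Homology (k K : Type) [Field k] [Field K] where
  H : ∀ {ι : Type}, Set (ι → k) → Type
  [grp : ∀ {ι : Type} (X : Set (ι → k)), AddCommGroup (H X)]
  [mod : ∀ {ι : Type} (X : Set (ι → k)), Module K (H X)]
  O : ∀ {ι : Type}, Set (ι → k) → ((ι → k) → k) → Type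
  [grpO : ∀ {ι : Type} (X : Set (ι → k)) (h : (ι → k) → k), AddCommGroup (O X h)]
  [modO : ∀ {ι : Type} (X : Set (ι → k)) (h : (ι → k) → k), Module K (O X h)]
  B : ∀ {ι : Type}, Set (ι → k) → ((ι → k) → k) → Type
  [grpB : ∀ {ι : Type} (X : Set (ι → k)) (h : (ι → k) → k), AddCommGroup (B X h)]
  [modB : ∀ {ι : Type} (X : Set (ι → k)) (h : (ι → k) → k), Module K (B X h)]
  push : ∀ {ι κ : Type} (X : Set (ι → k)) (Y : Set (κ → k)) (_ : (ι → k) → κ → k), H X →ₗ[K] H Y
  res : ∀ {ι : Type} (X : Set (ι → k)) (h : (ι → k) → k), H X →ₗ[K] O X h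
  bd : ∀ {ι : Type} (Z X : Set (ι → k)) (h : (ι → k) → k), B X h →ₗ[K] H Z
  actO : ∀ {ι : Type} (X : Set (ι → k)) (h : (ι → k) → k) (_ : (ι → k) → ι → k), O X h →ₗ[K] O X h
  actB : ∀ {ι : Type} (X : Set (ι → k)) (h : (ι → k) → k) (_ : (ι → k) → ι → k), B X h →ₗ[K] B X h

attribute [instance] Homology.grp Homology.mod Homology.grpO Homology.modO Homology.grpB Homology.modB

variable {K : Type} [Field K]

/-- The direct image under a finite map. -/
abbrev Homology.img (T : Homology k K) {ι κ : Type} (X : Set (ι → k)) (Y : Set (κ → k))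
    (π : (ι → k) → κ → k) (x : T.H X) : T.H Y := T.push X Y π x

/-- The direct image under a closed immersion. -/
abbrev Homology.inc (T : Homology k K) {ι : Type} (Z X : Set (ι → k)) (z : T.H Z) : T.H X :=
  T.img Z X (fun y => y) z

/-- The restriction to the open part `h ≠ 0`. -/
abbrev Homology.rst (T : Homology k K) {ι : Type} (X : Set (ι → k)) (h : (ι → k) → k) (x : T.H X) :
    T.O X h := T.res X h x

/-- The boundary map. -/
abbrev Homology.bnd (T : Homology k K) {ι : Type} (Z X : Set (ι → k)) (h : (ι → k) → k) (u : T.B X h) :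
    T.H Z := T.bd Z X h u

/-- The action of an automorphism on `O X h`. -/
abbrev Homology.autO (T : Homology k K) {ι : Type} (X : Set (ι → k)) (h : (ι → k) → k) (g : (ι → k) → ι → k)
    (x : T.O X h) : T.O X h := T.actO X h g x

/-- The action of an automorphism on `B X h`. -/
abbrev Homology.autB (T : Homology k K) {ι : Type} (X : Set (ι → k)) (h : (ι → k) → k) (g : (ι → k) → ι → k)
    (u : T.B X h) : T.B X h := T.actB X h g u

/-- The direct images are functorial. -/
structure Homology.IsFunctor (T : Homology k K) : Prop where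
  img_id : ∀ {ι : Type} [Finite ι] (X : Set (ι → k)), IsZeroSet X → ∀ x, T.img X X (fun y => y) x = x
  img_img : ∀ {ι κ μ : Type} [Finite ι] [Finite κ] [Finite μ] (X : Set (ι → k)) (Y : Set (κ → k))
    (W : Set (μ → k)) (f : (ι → k) → κ → k) (g : (κ → k) → μ → k), IsZeroSet X → IsZeroSet Y → IsZeroSet W →
    IsFiniteMap X Y f → IsFiniteMap Y W g → ∀ x, T.img Y W g (T.img X Y f x) = T.img X W (fun y => g (f y)) x
  img_eq : ∀ {ι κ : Type} [Finite ι] [Finite κ] (X : Set (ι → k)) (Y : Set (κ → k)) (f g : (ι → k) → κ → k),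
    IsZeroSet X → IsZeroSet Y → IsFiniteMap X Y f → IsFiniteMap X Y g → (∀ x ∈ X, f x = g x) →
    ∀ x, T.img X Y f x = T.img X Y g x

/-- Localization (the exact sequence of the closed part `h = 0`) and homotopy invariance (the homology of a trivial
line bundle comes from the base, so its automorphisms over the base act trivially). -/
structure Homology.IsLocal (T : Homology k K) : Prop where
  rst_img : ∀ {ι : Type} [Finite ι] (X : Set (ι → k)) (h : (ι → k) → k) (g : (ι → k) → ι → k), IsZeroSet X →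
    IsPol h → IsAutOf X h g → ∀ x, T.rst X h (T.img X X g x) = T.autO X h g (T.rst X h x)
  exact : ∀ {ι : Type} [Finite ι] (Z X : Set (ι → k)) (h : (ι → k) → k), IsZeroSet X → IsPol h →
    IsPart Z X h → ∀ x, T.rst X h x = 0 → ∃ z, T.inc Z X z = x
  line : ∀ {ι : Type} [Finite ι] (X : Set (ι → k)) (h : (ι → k) → k) (g : (ι → k) → ι → k), IsZeroSet X →
    IsPol h → IsLineAutOf X h g → ∀ x, T.autO X h g x = x

/-- The long exact sequence of the closed part `h = 0`, and homotopy invariance in the next degree. -/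
structure Homology.IsLong (T : Homology k K) : Prop where
  bnd_aut : ∀ {ι : Type} [Finite ι] (Z X : Set (ι → k)) (h : (ι → k) → k) (g : (ι → k) → ι → k), IsZeroSet X →
    IsPol h → IsPart Z X h → IsAutOf X h g → ∀ u, T.bnd Z X h (T.autB X h g u) = T.img Z Z g (T.bnd Z X h u)
  exact : ∀ {ι : Type} [Finite ι] (Z X : Set (ι → k)) (h : (ι → k) → k), IsZeroSet X → IsPol h →
    IsPart Z X h → ∀ z, T.inc Z X z = 0 → ∃ u, T.bnd Z X h u = z
  line : ∀ {ι : Type} [Finite ι] (X : Set (ι → k)) (h : (ι → k) → k) (g : (ι → k) → ι → k), IsZeroSet X →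
    IsPol h → IsLineAutOf X h g → ∀ u, T.autB X h g u = u

/-- Additivity: the homology of a finite disjoint union of closed sets is the direct sum. -/
structure Homology.IsAdd (T : Homology k K) : Prop where
  onto : ∀ {ι β : Type} [Finite ι] (Z : Finset β) (L : β → Set (ι → k)) (X : Set (ι → k)), IsUnion Z L X →
    ∀ x : T.H X, ∃ y : (b : β) → T.H (L b), ∑ b ∈ Z, T.inc (L b) X (y b) = x
  inj : ∀ {ι β : Type} [Finite ι] (Z : Finset β) (L : β → Set (ι → k)) (X : Set (ι → k)), IsUnion Z L X →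
    ∀ y : (b : β) → T.H (L b), ∑ b ∈ Z, T.inc (L b) X (y b) = 0 → ∀ b ∈ Z, y b = 0

/-- Quotients by finite groups: the direct image is a bijection of the invariant classes with the classes of the
quotient. -/
structure Homology.HasQuotients (T : Homology k K) : Prop where
  inj : ∀ {ι κ : Type} [Finite ι] [Finite κ] (X : Set (ι → k)) (Y : Set (κ → k)) (π : (ι → k) → κ → k)
    (Γ : Type) (ρ : Γ → (ι → k) → ι → k), IsQuotient X Y π Γ ρ →
    ∀ x, (∀ γ, T.img X X (ρ γ) x = x) → T.img X Y π x = 0 → x = 0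
  onto : ∀ {ι κ : Type} [Finite ι] [Finite κ] (X : Set (ι → k)) (Y : Set (κ → k)) (π : (ι → k) → κ → k)
    (Γ : Type) (ρ : Γ → (ι → k) → ι → k), IsQuotient X Y π Γ ρ →
    ∀ y, ∃ x, (∀ γ, T.img X X (ρ γ) x = x) ∧ T.img X Y π x = y

/-- The properties of Borel–Moore homology which are used. -/
structure Homology.IsBorelMoore (T : Homology k K) : Prop where
  functor : T.IsFunctor
  isLocal : T.IsLocal
  long : T.IsLong
  add : T.IsAdd
  quotients : T.HasQuotients

/-- The data of a map `cl : G → T` of homology theories, for example the cycle map. -/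
structure CycleMap (k K : Type) [Field k] [Field K] where
  G : Homology k K
  T : Homology k K
  cl : ∀ {ι : Type} (X : Set (ι → k)), G.H X →ₗ[K] T.H X

/-- The map `G.H X → T.H X`. -/
abbrev CycleMap.cyc (P : CycleMap k K) {ι : Type} (X : Set (ι → k)) (x : P.G.H X) : P.T.H X := P.cl X x

/-- `cl` is a map of Borel–Moore homology theories. -/
structure CycleMap.IsBorelMoore (P : CycleMap k K) : Prop where
  source : P.G.IsBorelMoore
  target : P.T.IsBorelMoore
  cyc_img : ∀ {ι κ : Type} [Finite ι] [Finite κ] (X : Set (ι → k)) (Y : Set (κ → k)) (π : (ι → k) → κ → k),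
    IsZeroSet X → IsZeroSet Y → IsFiniteMap X Y π → ∀ x, P.cyc Y (P.G.img X Y π x) = P.T.img X Y π (P.cyc X x)

/-! ### Automorphisms and closed immersions -/

/-- The action of an automorphism. -/
abbrev Homology.act (T : Homology k K) {ι : Type} (X : Set (ι → k)) (g : (ι → k) → ι → k) :
    T.H X →ₗ[K] T.H X := T.push X X g

/-- The closed immersion. -/
abbrev Homology.incl (T : Homology k K) {ι : Type} (Z X : Set (ι → k)) : T.H Z →ₗ[K] T.H X :=
  T.push Z X fun y => y

lemma IsAut.fin {ι : Type} {X : Set (ι → k)} {g : (ι → k) → ι → k} (hg : IsAut X g) : IsFiniteMap X X g := by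
  obtain ⟨h1, h2, g', h3, h4, h5, h6⟩ := hg
  exact ⟨h1, h2, fun i => Itg.of_pol (F := fun x : ι → k => x i) (h3 i) fun x hx => by rw [h5 x hx]⟩

lemma isPolMap_id {ι : Type} : IsPolMap fun y : ι → k => y := fun i => IsPol.coord i

lemma fin_incl {ι : Type} {Z X : Set (ι → k)} (h : Z ⊆ X) : IsFiniteMap Z X fun y => y :=
  ⟨isPolMap_id, fun _ hx => h hx,
    fun i => Itg.of_pol (F := fun x : ι → k => x i) (IsPol.coord i) fun _ _ => rfl⟩

lemma isZeroSet_part {ι : Type} {Z X : Set (ι → k)} {h : (ι → k) → k} (hX : IsZeroSet X) (hh : IsPol h)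
    (hZ : IsPart Z X h) : IsZeroSet Z := by
  have h1 := hX.inter (isZeroSet_eq hh)
  have h2 : X ∩ {x | h x = 0} = Z := by
    ext y
    exact (hZ y).symm
  rw [h2] at h1
  exact h1

theorem Homology.IsBorelMoore.aut_comp {T : Homology k K} (hT : T.IsBorelMoore) {ι : Type} [Finite ι]
    (X : Set (ι → k)) (g g' : (ι → k) → ι → k) (hX : IsZeroSet X) (hg : IsAut X g) (hg' : IsAut X g')
    (x : T.H X) : T.act X (fun y => g (g' y)) x = T.act X g (T.act X g' x) :=
  (hT.functor.img_img X X X g' g hX hX hX (IsAut.fin hg') (IsAut.fin hg) x).symm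

theorem Homology.IsBorelMoore.aut_inc {T : Homology k K} (hT : T.IsBorelMoore) {ι : Type} [Finite ι]
    (Z X : Set (ι → k)) (g : (ι → k) → ι → k) (hZ : IsZeroSet Z) (hX : IsZeroSet X) (hZX : Z ⊆ X)
    (hg : IsAut Z g) (hg' : IsAut X g) (z : T.H Z) :
    T.act X g (T.incl Z X z) = T.incl Z X (T.act Z g z) :=
  (hT.functor.img_img Z X X (fun y => y) g hZ hX hX (fin_incl hZX) (IsAut.fin hg') z).trans
    (hT.functor.img_img Z Z X g (fun y => y) hZ hZ hX (IsAut.fin hg) (fin_incl hZX) z).symm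

theorem Homology.IsBorelMoore.img_aut {T : Homology k K} (hT : T.IsBorelMoore) {ι κ : Type} [Finite ι]
    [Finite κ] (X : Set (ι → k)) (Y : Set (κ → k)) (π : (ι → k) → κ → k) (g : (ι → k) → ι → k)
    (g' : (κ → k) → κ → k) (hX : IsZeroSet X) (hY : IsZeroSet Y) (hπ : IsFiniteMap X Y π) (hg : IsAut X g)
    (hg' : IsAut Y g') (h : ∀ x ∈ X, π (g x) = g' (π x)) (x : T.H X) :
    T.push X Y π (T.act X g x) = T.act Y g' (T.push X Y π x) := by
  -- the composite with an automorphism is finite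
  have h1 : IsFiniteMap X Y fun y => g' (π y) := by
    obtain ⟨h2, h3, u, h4, h5, h6, h7⟩ := hg'
    refine ⟨fun j => (h2 j).comp hπ.1, fun x hx => h3 _ (hπ.2.1 x hx), fun i => ?_⟩
    obtain ⟨p, hp, hp0⟩ := hπ.2.2 i
    choose U hU using h4
    have h8 : pull X π = (pull X fun y => g' (π y)).comp (MvPolynomial.bind₁ U).toRingHom := by
      refine RingHom.ext fun F => ?_
      funext z
      show MvPolynomial.eval (π z) F = MvPolynomial.eval (g' (π z)) (MvPolynomial.bind₁ U F)
      have h9 : π z = fun j => MvPolynomial.eval (g' (π z)) (U j) := by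
        funext j
        rw [← hU j]
        exact (congrFun (h6 _ (hπ.2.1 z z.2)) j).symm
      rw [MvPolynomial.eval, MvPolynomial.eval, MvPolynomial.eval₂Hom_bind₁]
      conv_lhs => rw [h9]
      rfl
    refine ⟨p.map (MvPolynomial.bind₁ U).toRingHom, hp.map _, ?_⟩
    rw [Polynomial.eval₂_map, ← h8]
    exact hp0
  have h10 : IsFiniteMap X Y fun y => π (g y) := by
    refine ⟨fun j => (hπ.1 j).comp hg.1, fun x hx => hπ.2.1 _ (hg.2.1 x hx), fun i => ?_⟩
    obtain ⟨p, hp, hp0⟩ := h1.2.2 i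
    refine ⟨p, hp, ?_⟩
    have h11 : pull X (fun y => π (g y)) = pull X fun y => g' (π y) := by
      refine RingHom.ext fun F => ?_
      funext z
      show MvPolynomial.eval (π (g z)) F = MvPolynomial.eval (g' (π z)) F
      rw [h z z.2]
    rw [h11]
    exact hp0
  exact (hT.functor.img_img X X Y g π hX hX hY (IsAut.fin hg) hπ x).trans
    ((hT.functor.img_eq X Y _ _ hX hY h10 h1 h x).trans
      (hT.functor.img_img X Y Y π g' hX hY hY hπ (IsAut.fin hg') x).symm)

theorem Homology.IsBorelMoore.aut_rst {T : Homology k K} (hT : T.IsBorelMoore) {ι : Type} [Finite ι]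
    (X : Set (ι → k)) (h : (ι → k) → k) (g : (ι → k) → ι → k) (hX : IsZeroSet X) (hh : IsPol h)
    (hg : IsAutOf X h g) (x : T.H X) : T.res X h (T.act X g x) = T.actO X h g (T.res X h x) :=
  hT.isLocal.rst_img X h g hX hh hg x

theorem CycleMap.IsBorelMoore.aut {P : CycleMap k K} (hP : P.IsBorelMoore) {ι : Type} [Finite ι]
    (X : Set (ι → k)) (g : (ι → k) → ι → k) (hX : IsZeroSet X) (hg : IsAut X g) (x : P.G.H X) :
    P.cl X (P.G.act X g x) = P.T.act X g (P.cl X x) := hP.cyc_img X X g hX hX (IsAut.fin hg) x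

theorem CycleMap.IsBorelMoore.inc {P : CycleMap k K} (hP : P.IsBorelMoore) {ι : Type} [Finite ι]
    (Z X : Set (ι → k)) (hZ : IsZeroSet Z) (hX : IsZeroSet X) (hZX : Z ⊆ X) (z : P.G.H Z) :
    P.cl X (P.G.incl Z X z) = P.T.incl Z X (P.cl Z z) := hP.cyc_img Z X _ hZ hX (fin_incl hZX) z

theorem CycleMap.IsBorelMoore.img {P : CycleMap k K} (hP : P.IsBorelMoore) {ι κ : Type} [Finite ι] [Finite κ]
    (X : Set (ι → k)) (Y : Set (κ → k)) (π : (ι → k) → κ → k) (hX : IsZeroSet X) (hY : IsZeroSet Y)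
    (hπ : IsFiniteMap X Y π) (x : P.G.H X) :
    P.cl Y (P.G.push X Y π x) = P.T.push X Y π (P.cl X x) := hP.cyc_img X Y π hX hY hπ x

end Pool.Agent.U436.CS
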