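import Pool.Agent.U436.CS.Theory

/-!
# Products with a fixed variety
-/

set_option autoImplicit false

namespace Pool.Agent.U436.CS

open Pool.Agent.U436.AS Pool.Agent.U436.CT

variable {k : Type} [Field k] {ι κ τ : Type}

/-- The product `X × S`. -/
def tms (X : Set (ι → k)) (S : Set (τ → k)) : Set (ι ⊕ τ → k) := {w | w ∘ Sum.inl ∈ X ∧ w ∘ Sum.inr ∈ S}

/-- The map `(x, s) ↦ (g x, s)`. -/
def ftm (g : (ι → k) → κ → k) (w : ι ⊕ τ → k) : κ ⊕ τ → k := Sum.elim (g (w ∘ Sum.inl)) (w ∘ Sum.inr)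

/-- The function `(x, s) ↦ h x`. -/
def htm (h : (ι → k) → k) (w : ι ⊕ τ → k) : k := h (w ∘ Sum.inl)

omit [Field k] in
lemma ftm_inl (g : (ι → k) → κ → k) (w : ι ⊕ τ → k) : ftm g w ∘ Sum.inl = g (w ∘ Sum.inl) := rfl

omit [Field k] in
lemma ftm_inr (g : (ι → k) → κ → k) (w : ι ⊕ τ → k) : ftm g w ∘ Sum.inr = w ∘ Sum.inr := rfl

omit [Field k] in
lemma ext_sum {v w : ι ⊕ τ → k} (h1 : v ∘ Sum.inl = w ∘ Sum.inl) (h2 : v ∘ Sum.inr = w ∘ Sum.inr) : v = w := by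
  funext q
  rcases q with q | q
  · exact congrFun h1 q
  · exact congrFun h2 q

lemma isPol_htm {h : (ι → k) → k} (hh : IsPol h) : IsPol (htm h : (ι ⊕ τ → k) → k) :=
  isPol_restrict Sum.inl hh

lemma isPolMap_ftm {g : (ι → k) → κ → k} (hg : IsPolMap g) :
    IsPolMap (ftm g : (ι ⊕ τ → k) → κ ⊕ τ → k) := by
  rintro (q | q)
  · exact isPol_restrict Sum.inl (hg q)
  · exact IsPol.coord _

lemma isZeroSet_tms {X : Set (ι → k)} {S : Set (τ → k)} (hX : IsZeroSet X) (hS : IsZeroSet S) :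
    IsZeroSet (tms X S) := by
  obtain ⟨F, hF, rfl⟩ := hX
  obtain ⟨G, hG, rfl⟩ := hS
  have h1 : IsZeroSet {w : ι ⊕ τ → k | ∀ f : F, (f : (ι → k) → k) (w ∘ Sum.inl) = 0} :=
    isZeroSet_forall fun f => isPol_restrict Sum.inl (hF f f.2)
  have h2 : IsZeroSet {w : ι ⊕ τ → k | ∀ f : G, (f : (τ → k) → k) (w ∘ Sum.inr) = 0} :=
    isZeroSet_forall fun f => isPol_restrict Sum.inr (hG f f.2)
  have h3 := h1.inter h2
  have h4 : ({w : ι ⊕ τ → k | ∀ f : F, (f : (ι → k) → k) (w ∘ Sum.inl) = 0} ∩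
      {w : ι ⊕ τ → k | ∀ f : G, (f : (τ → k) → k) (w ∘ Sum.inr) = 0}) =
      tms {x | ∀ f ∈ F, f x = 0} {x | ∀ f ∈ G, f x = 0} := by
    ext w
    constructor
    · rintro ⟨h5, h6⟩
      exact ⟨fun f hf => h5 ⟨f, hf⟩, fun f hf => h6 ⟨f, hf⟩⟩
    · rintro ⟨h5, h6⟩
      exact ⟨fun f => h5 f f.2, fun f => h6 f f.2⟩
  rw [h4] at h3
  exact h3

lemma isAut_ftm {X : Set (ι → k)} (S : Set (τ → k)) {g : (ι → k) → ι → k} (hg : IsAut X g) :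
    IsAut (tms X S) (ftm g) := by
  obtain ⟨h1, h2, g', h3, h4, h5, h6⟩ := hg
  refine ⟨isPolMap_ftm h1, fun _ hw => ⟨h2 _ hw.1, hw.2⟩, ftm g', isPolMap_ftm h3,
    fun _ hw => ⟨h4 _ hw.1, hw.2⟩, fun w hw => ext_sum ?_ rfl, fun w hw => ext_sum ?_ rfl⟩
  · exact h5 _ hw.1
  · exact h6 _ hw.1

lemma isAutOf_ftm {X : Set (ι → k)} (S : Set (τ → k)) {h : (ι → k) → k} {g : (ι → k) → ι → k}
    (hg : IsAutOf X h g) : IsAutOf (tms X S) (htm h) (ftm g) :=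
  ⟨isAut_ftm S hg.1, fun w hw => hg.2 _ hw.1⟩

lemma isPart_tms {Z X : Set (ι → k)} (S : Set (τ → k)) {h : (ι → k) → k} (hZ : IsPart Z X h) :
    IsPart (tms Z S) (tms X S) (htm h) := by
  intro w
  constructor
  · rintro ⟨h1, h2⟩
    exact ⟨⟨((hZ _).mp h1).1, h2⟩, ((hZ _).mp h1).2⟩
  · rintro ⟨⟨h1, h2⟩, h3⟩
    exact ⟨(hZ _).mpr ⟨h1, h3⟩, h2⟩

/-- Forget the coordinates of `S`. -/
def fgt (w : (ι ⊕ τ) ⊕ Unit → k) : ι ⊕ Unit → k := Sum.elim ((w ∘ Sum.inl) ∘ Sum.inl) (w ∘ Sum.inr)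

lemma isPol_fgt {F : (ι ⊕ Unit → k) → k} (hF : IsPol F) :
    IsPol fun w : (ι ⊕ τ) ⊕ Unit → k => F (fgt w) := by
  refine hF.comp (Φ := fgt) ?_
  rintro (q | q)
  · exact IsPol.coord _
  · exact IsPol.coord _

lemma mem_opn_tms {X : Set (ι → k)} {S : Set (τ → k)} {h : (ι → k) → k} {w : (ι ⊕ τ) ⊕ Unit → k} :
    w ∈ opn (tms X S) (htm h) ↔ fgt w ∈ opn X h ∧ (w ∘ Sum.inl) ∘ Sum.inr ∈ S := by
  constructor
  · rintro ⟨⟨h1, h2⟩, h3⟩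
    exact ⟨⟨h1, h3⟩, h2⟩
  · rintro ⟨⟨h1, h3⟩, h2⟩
    exact ⟨⟨h1, h2⟩, h3⟩

lemma isLineAut_ftm {X : Set (ι → k)} {S : Set (τ → k)} (hS : IsZeroSet S) [Finite τ] {h : (ι → k) → k}
    {g : (ι → k) → ι → k} (hg : IsLineAut (opn X h) (CT.ext g)) :
    IsLineAut (opn (tms X S) (htm h)) (CT.ext (ftm g)) := by
  obtain ⟨κ, hκ, Y, p, t, q, h1, h2, h3, h4, h5, h6, h7, h8⟩ := hg
  refine ⟨κ ⊕ τ, inferInstance, tms Y S, fun w => Sum.elim (p (fgt w)) ((w ∘ Sum.inl) ∘ Sum.inr),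
    fun w => t (fgt w), fun v => Sum.elim (Sum.elim (q (fgt v) ∘ Sum.inl) ((v ∘ Sum.inl) ∘ Sum.inr))
      (q (fgt v) ∘ Sum.inr), isZeroSet_tms h1 hS, ?_, isPol_fgt h3, ?_, ?_, ?_, ?_, ?_⟩
  · rintro (a | a)
    · exact isPol_fgt (h2 a)
    · exact IsPol.coord _
  · rintro ((a | a) | a)
    · exact isPol_fgt (h4 (Sum.inl a))
    · exact IsPol.coord _
    · exact isPol_fgt (h4 (Sum.inr a))
  · intro w hw
    exact ⟨h5 _ (mem_opn_tms.mp hw).1, (mem_opn_tms.mp hw).2⟩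
  · intro v hv
    obtain ⟨h9, h10, h11⟩ := h6 (fgt v) hv.1
    have e : fgt (Sum.elim (Sum.elim (q (fgt v) ∘ Sum.inl) ((v ∘ Sum.inl) ∘ Sum.inr))
        (q (fgt v) ∘ Sum.inr) : (ι ⊕ τ) ⊕ Unit → k) = q (fgt v) := ext_sum rfl rfl
    refine ⟨mem_opn_tms.mpr ⟨by rw [e]; exact h9, hv.2⟩, ext_sum ?_ rfl, ?_⟩
    · show p (fgt _) = _
      rw [e, h10]
      rfl
    · show t (fgt _) = _
      rw [e, h11]
      rfl
  · intro w hw
    have h9 := h7 _ (mem_opn_tms.mp hw).1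
    have e : fgt (Sum.elim (Sum.elim (p (fgt w)) ((w ∘ Sum.inl) ∘ Sum.inr)) fun _ => t (fgt w) :
        (κ ⊕ τ) ⊕ Unit → k) = Sum.elim (p (fgt w)) fun _ => t (fgt w) := ext_sum rfl rfl
    show (Sum.elim (Sum.elim (q (fgt (Sum.elim (Sum.elim (p (fgt w)) ((w ∘ Sum.inl) ∘ Sum.inr))
      fun _ => t (fgt w) : (κ ⊕ τ) ⊕ Unit → k)) ∘ Sum.inl) ((w ∘ Sum.inl) ∘ Sum.inr))
      (q (fgt (Sum.elim (Sum.elim (p (fgt w)) ((w ∘ Sum.inl) ∘ Sum.inr)) fun _ => t (fgt w) :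
        (κ ⊕ τ) ⊕ Unit → k)) ∘ Sum.inr) : (ι ⊕ τ) ⊕ Unit → k) = w
    rw [e, h9]
    exact ext_sum (ext_sum rfl rfl) rfl
  · intro w hw
    have h9 := h8 _ (mem_opn_tms.mp hw).1
    refine ext_sum ?_ rfl
    exact h9

/-- The functions on `X` as functions on `X × S`. -/
def rsr (X : Set (ι → k)) (S : Set (τ → k)) : (X → k) →+* (tms X S → k) :=
  RingHom.pi fun w => Pi.evalRingHom (fun _ : X => k) ⟨w.1 ∘ Sum.inl, w.2.1⟩

lemma isFiniteMap_ftm {X : Set (ι → k)} {Y : Set (κ → k)} (S : Set (τ → k)) {π : (ι → k) → κ → k}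
    (hπ : IsFiniteMap X Y π) : IsFiniteMap (tms X S) (tms Y S) (ftm π) := by
  obtain ⟨h1, h2, h3⟩ := hπ
  refine ⟨isPolMap_ftm h1, fun w hw => ⟨h2 _ hw.1, hw.2⟩, ?_⟩
  rintro (i | i)
  · obtain ⟨p, hp, hp0⟩ := h3 i
    refine ⟨p.map (MvPolynomial.rename (Sum.inl : κ → κ ⊕ τ)).toRingHom, hp.map _, ?_⟩
    rw [Polynomial.eval₂_map]
    have h4 : (pull (tms X S) (ftm π)).comp (MvPolynomial.rename (Sum.inl : κ → κ ⊕ τ)).toRingHom =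
        (rsr X S).comp (pull X π) := by
      refine RingHom.ext fun F => ?_
      funext w
      show MvPolynomial.eval (ftm π w.1) (MvPolynomial.rename Sum.inl F) = MvPolynomial.eval (π (w.1 ∘ Sum.inl)) F
      rw [MvPolynomial.eval_rename]
      rfl
    have h5 : (fun w : tms X S => (w : ι ⊕ τ → k) (Sum.inl i)) = rsr X S (fun x : X => (x : ι → k) i) := rfl
    rw [h4, h5, ← Polynomial.hom_eval₂, hp0, map_zero]
  · exact Itg.of_pol (F := fun w : ι ⊕ τ → k => w (Sum.inr i)) (IsPol.coord (Sum.inr i)) fun w _ => rfl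

lemma isQuotient_ftm {X : Set (ι → k)} {Y : Set (κ → k)} {S : Set (τ → k)} (hS : IsZeroSet S)
    {π : (ι → k) → κ → k} {Γ : Type} {ρ : Γ → (ι → k) → ι → k} (h : IsQuotient X Y π Γ ρ) :
    IsQuotient (tms X S) (tms Y S) (ftm π) Γ fun γ => ftm (ρ γ) := by
  obtain ⟨h1, h2, h3, h4, h5, h6, h7⟩ := h
  refine ⟨h1, isZeroSet_tms h2 hS, isZeroSet_tms h3 hS, isFiniteMap_ftm S h4, ?_, fun γ => isAut_ftm S (h6 γ), ?_⟩
  · intro y hy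
    obtain ⟨x, hx, hxy⟩ := h5 _ hy.1
    exact ⟨Sum.elim x (y ∘ Sum.inr), ⟨hx, hy.2⟩, ext_sum hxy rfl⟩
  · intro w hw w' hw'
    constructor
    · intro e
      obtain ⟨γ, hγ⟩ := (h7 _ hw.1 _ hw'.1).mp (congrArg (fun v => v ∘ Sum.inl) e)
      exact ⟨γ, ext_sum hγ (congrArg (fun v => v ∘ Sum.inr) e).symm⟩
    · rintro ⟨γ, e⟩
      refine ext_sum ((h7 _ hw.1 _ hw'.1).mpr ⟨γ, congrArg (fun v => v ∘ Sum.inl) e⟩) ?_
      exact (congrArg (fun v => v ∘ Sum.inr) e).symm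

lemma isUnion_tms {β : Type} {Z : Finset β} {L : β → Set (ι → k)} {X : Set (ι → k)} {S : Set (τ → k)}
    (hS : IsZeroSet S) (h : IsUnion Z L X) : IsUnion Z (fun b => tms (L b) S) (tms X S) := by
  obtain ⟨h1, h2, h3⟩ := h
  refine ⟨fun b hb => isZeroSet_tms (h1 b hb) hS, fun b hb c hc hbc => ?_, fun w => ?_⟩
  · rw [Set.disjoint_left]
    intro w hw hw'
    exact Set.disjoint_left.mp (h2 b hb c hc hbc) hw.1 hw'.1
  · constructor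
    · rintro ⟨h4, h5⟩
      obtain ⟨b, hb, h6⟩ := (h3 _).mp h4
      exact ⟨b, hb, h6, h5⟩
    · rintro ⟨b, hb, h6, h5⟩
      exact ⟨(h3 _).mpr ⟨b, hb, h6⟩, h5⟩

end Pool.Agent.U436.CS
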